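import Pool.Agent.LibTL95.ArchCop
namespace TL95

private theorem Arch_coprime {l A α₁ α₂ b₁ b₂ : ℕ} (hl : 1 ≤ l) (hA : 1 ≤ A) (hAl : A ≤ 2 ^ l)
    (hb1 : 0 < b₁) (hb2 : 0 < b₂) (hb1l : b₁ ≤ 2 ^ l) (hb2l : b₂ ≤ 2 ^ l) (hco : b₁.Coprime b₂)
    (h1' : 2 ≤ α₁) (h2' : 2 ≤ α₂) (hA1 : α₁ ≤ 2 ^ A) (hA2 : α₂ ≤ 2 ^ A)
    (hMI : ∀ i j : ℕ, α₁ ^ i = α₂ ^ j → i = 0 ∧ j = 0) :
    (1 / 2 : ℝ) ^ (2 ^ 33 * A ^ 2 * l ^ 4) ≤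
      |(b₂ : ℝ) * Real.log α₂ - (b₁ : ℝ) * Real.log α₁| := by
  have e : 2 ^ 33 * A ^ 2 * l ^ 4 = 2 ^ 33 * l ^ 4 * A ^ 2 := by ring
  by_cases hc1 : 2 ^ 16 * l ^ 2 * A ≤ b₁
  · rw [e]
    exact arch_large hl hA hAl hb2 hb1l hb2l hco hc1 h1' h2' hA1 hA2 hMI
  by_cases hc2 : 2 ^ 16 * l ^ 2 * A ≤ b₂
  · rw [e, abs_sub_comm]
    refine arch_large hl hA hAl hb1 hb2l hb1l hco.symm hc2 h2' h1' hA2 hA1 ?_
    intro i j hij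
    exact (hMI j i hij.symm).symm
  · rw [not_le] at hc1 hc2
    have h := arch_small (M := 2 ^ 16 * l ^ 2 * A) hb1 h1' h2' hA1 hA2 hc1.le hc2.le hMI
    refine le_trans ?_ h
    apply pow_le_pow_of_le_one (by norm_num) (by norm_num)
    have h1 : l ^ 2 ≤ l ^ 4 := Nat.pow_le_pow_right hl (by norm_num)
    have h2 : A ^ 2 * l ^ 2 ≤ A ^ 2 * l ^ 4 := Nat.mul_le_mul_left _ h1
    nlinarith

/-- **Archimedean lower bound for a linear form in two logarithms.**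
Divide by `g = gcd(b₁, b₂)` (`|Λ| = g |Λ'| ≥ |Λ'|`). For coprime exponents: if both are
`< 2^16 l^2 A` use `arch_small` with `M = 2^16 l^2 A`; if `b₁ ≥ 2^16 l^2 A` use `arch_large`; if
`b₂ ≥ 2^16 l^2 A` use `arch_large` with the roles exchanged (`abs_sub_comm`). -/
theorem two_log_arch {l A α₁ α₂ b₁ b₂ : ℕ} (hl : 1 ≤ l) (hA : 1 ≤ A) (hAl : A ≤ 2 ^ l)
    (hb1 : 0 < b₁) (hb2 : 0 < b₂) (hb1l : b₁ ≤ 2 ^ l) (hb2l : b₂ ≤ 2 ^ l)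
    (h1' : 2 ≤ α₁) (h2' : 2 ≤ α₂) (hA1 : α₁ ≤ 2 ^ A) (hA2 : α₂ ≤ 2 ^ A)
    (hMI : ∀ i j : ℕ, α₁ ^ i = α₂ ^ j → i = 0 ∧ j = 0) :
    (1 / 2 : ℝ) ^ (2 ^ 33 * A ^ 2 * l ^ 4) ≤
      |(b₂ : ℝ) * Real.log α₂ - (b₁ : ℝ) * Real.log α₁| := by
  set g := Nat.gcd b₁ b₂ with hg
  have hg0 : 0 < g := Nat.gcd_pos_of_pos_left _ hb1
  obtain ⟨c₁, hc₁⟩ : g ∣ b₁ := Nat.gcd_dvd_left _ _
  obtain ⟨c₂, hc₂⟩ : g ∣ b₂ := Nat.gcd_dvd_right _ _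
  have hc1 : 0 < c₁ := by
    rcases Nat.eq_zero_or_pos c₁ with h0 | h0
    · rw [h0, mul_zero] at hc₁
      omega
    · exact h0
  have hc2 : 0 < c₂ := by
    rcases Nat.eq_zero_or_pos c₂ with h0 | h0
    · rw [h0, mul_zero] at hc₂
      omega
    · exact h0
  have hco : c₁.Coprime c₂ := by
    have h3 := Nat.coprime_div_gcd_div_gcd (m := b₁) (n := b₂) hg0
    have e1 : b₁ / Nat.gcd b₁ b₂ = c₁ := by
      rw [← hg]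
      exact Nat.div_eq_of_eq_mul_right hg0 hc₁
    have e2 : b₂ / Nat.gcd b₁ b₂ = c₂ := by
      rw [← hg]
      exact Nat.div_eq_of_eq_mul_right hg0 hc₂
    rwa [e1, e2] at h3
  have hcb1 : c₁ ≤ b₁ := by
    rw [hc₁]
    exact Nat.le_mul_of_pos_left _ hg0
  have hcb2 : c₂ ≤ b₂ := by
    rw [hc₂]
    exact Nat.le_mul_of_pos_left _ hg0
  have h := Arch_coprime hl hA hAl hc1 hc2 (hcb1.trans hb1l) (hcb2.trans hb2l) hco h1' h2' hA1 hA2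
    hMI
  refine h.trans ?_
  have e : (b₂ : ℝ) * Real.log α₂ - (b₁ : ℝ) * Real.log α₁ =
      (g : ℝ) * ((c₂ : ℝ) * Real.log α₂ - (c₁ : ℝ) * Real.log α₁) := by
    have e1 : (b₁ : ℝ) = (g : ℝ) * c₁ := by exact_mod_cast hc₁
    have e2 : (b₂ : ℝ) = (g : ℝ) * c₂ := by exact_mod_cast hc₂
    rw [e1, e2]
    ring
  rw [e, abs_mul, Nat.abs_cast]
  have hg1 : (1 : ℝ) ≤ g := by exact_mod_cast hg0
  exact le_mul_of_one_le_left (abs_nonneg _) hg1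

end TL95
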