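import Pool.Agent.LibTL95.AdicCop
namespace TL95

/-- **2-adic lower bound for a linear form in two logarithms.**
Replace `α_i` by `α_i²` (`≡ 1 (mod 8)`, `≤ 2^(2A)`, and `2^v ∣ α₁^b₁ - α₂^b₂` implies
`2^v ∣ (α₁²)^b₁ - (α₂²)^b₂`), `l` by `2 l`. Let `g = gcd(b₁, b₂)`, `b_i = g b_i'`,
`X = (α₁²)^b₁'`, `Y = (α₂²)^b₂'`, `X ≡ Y ≡ 1 (mod 8)`; then `v₂(X^g - Y^g) = v₂(X - Y) + v₂(g)`
(`Int.two_pow_sub_pow'`-type lifting the exponent, `4 ∣ X - Y`), `v₂(g) ≤ l`, and `adic_coprime`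
gives `v₂(X - Y) < 3 * 2^32 (2l)^4 (2A)^2 = 3 * 2^38 l^4 A^2`. -/
theorem two_log_two {l A α₁ α₂ b₁ b₂ v : ℕ} (hl : 1 ≤ l) (hA : 1 ≤ A) (hAl : A ≤ 2 ^ l)
    (hb1 : 0 < b₁) (hb2 : 0 < b₂) (hb1l : b₁ ≤ 2 ^ l) (hb2l : b₂ ≤ 2 ^ l)
    (h1 : Odd α₁) (h2 : Odd α₂) (h1' : 2 ≤ α₁) (h2' : 2 ≤ α₂)
    (hA1 : α₁ ≤ 2 ^ A) (hA2 : α₂ ≤ 2 ^ A)
    (hMI : ∀ i j : ℕ, α₁ ^ i = α₂ ^ j → i = 0 ∧ j = 0)
    (h : (2 : ℤ) ^ v ∣ (α₁ : ℤ) ^ b₁ - (α₂ : ℤ) ^ b₂) :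
    v ≤ 2 ^ 40 * A ^ 2 * l ^ 4 := by
  have hsq : ∀ α : ℕ, Odd α → (α ^ 2) % 8 = 1 := by
    intro α hα
    have h8 : α % 8 = 1 ∨ α % 8 = 3 ∨ α % 8 = 5 ∨ α % 8 = 7 := by
      have := Nat.odd_iff.1 hα
      omega
    rw [Nat.pow_mod]
    rcases h8 with h | h | h | h <;> rw [h]
  have hpow8 : ∀ α b : ℕ, α % 8 = 1 → (α ^ b) % 8 = 1 := by
    intro α b hα
    rw [Nat.pow_mod, hα, one_pow]
    rfl
  set g := Nat.gcd b₁ b₂ with hg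
  have hg0 : 0 < g := Nat.gcd_pos_of_pos_left _ hb1
  obtain ⟨c₁, hc₁⟩ : g ∣ b₁ := Nat.gcd_dvd_left _ _
  obtain ⟨c₂, hc₂⟩ : g ∣ b₂ := Nat.gcd_dvd_right _ _
  have hc1 : 0 < c₁ := by
    rcases Nat.eq_zero_or_pos c₁ with h0 | h0
    · rw [h0, mul_zero] at hc₁
      omega
    · exact h0
  have hc2 : 0 < c₂ := by
    rcases Nat.eq_zero_or_pos c₂ with h0 | h0
    · rw [h0, mul_zero] at hc₂
      omega
    · exact h0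
  have hco : c₁.Coprime c₂ := by
    have h3 := Nat.coprime_div_gcd_div_gcd (m := b₁) (n := b₂) hg0
    have e1 : b₁ / Nat.gcd b₁ b₂ = c₁ := by
      rw [← hg]
      exact Nat.div_eq_of_eq_mul_right hg0 hc₁
    have e2 : b₂ / Nat.gcd b₁ b₂ = c₂ := by
      rw [← hg]
      exact Nat.div_eq_of_eq_mul_right hg0 hc₂
    rwa [e1, e2] at h3
  have hcb1 : c₁ ≤ b₁ := by
    rw [hc₁]
    exact Nat.le_mul_of_pos_left _ hg0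
  have hcb2 : c₂ ≤ b₂ := by
    rw [hc₂]
    exact Nat.le_mul_of_pos_left _ hg0
  have hl2 : 2 ^ l ≤ 2 ^ (2 * l) := Nat.pow_le_pow_right (by norm_num) (by omega)
  have hgl : g ≤ 2 ^ l := (Nat.gcd_le_left _ hb1).trans hb1l
  have hmain := adic_coprime (l := 2 * l) (A := 2 * A) (α₁ := α₁ ^ 2) (α₂ := α₂ ^ 2)
    (b₁ := c₁) (b₂ := c₂) (by omega) (by omega)
    (by
      have : 2 * 2 ^ l ≤ 2 ^ (2 * l) := by
        rw [← pow_succ']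
        exact Nat.pow_le_pow_right (by norm_num) (by omega)
      omega)
    hc1 hc2 ((hcb1.trans hb1l).trans hl2) ((hcb2.trans hb2l).trans hl2) hco
    (hsq _ h1) (hsq _ h2) (by nlinarith) (by nlinarith)
    (by
      rw [mul_comm 2 A, pow_mul]
      exact Nat.pow_le_pow_left hA1 2)
    (by
      rw [mul_comm 2 A, pow_mul]
      exact Nat.pow_le_pow_left hA2 2)
    (by
      intro i j hij
      rw [← pow_mul, ← pow_mul] at hij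
      have := hMI _ _ hij
      omega)
  set X : ℤ := ((α₁ ^ 2 : ℕ) : ℤ) ^ c₁ with hX
  set Y : ℤ := ((α₂ ^ 2 : ℕ) : ℤ) ^ c₂ with hY
  have hX8 : X % 8 = 1 := by
    have := hpow8 _ c₁ (hsq _ h1)
    rw [hX]
    exact_mod_cast this
  have hY8 : Y % 8 = 1 := by
    have := hpow8 _ c₂ (hsq _ h2)
    rw [hY]
    exact_mod_cast this
  have hdvd : (2 : ℤ) ^ v ∣ X ^ g - Y ^ g := by
    have e : X ^ g - Y ^ g = ((α₁ : ℤ) ^ b₁ - (α₂ : ℤ) ^ b₂) * ((α₁ : ℤ) ^ b₁ + (α₂ : ℤ) ^ b₂) := by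
      have e1 : X ^ g = ((α₁ : ℤ) ^ b₁) ^ 2 := by
        rw [hX, ← pow_mul, Nat.cast_pow, ← pow_mul, ← pow_mul, mul_comm c₁ g, ← hc₁, mul_comm]
      have e2 : Y ^ g = ((α₂ : ℤ) ^ b₂) ^ 2 := by
        rw [hY, ← pow_mul, Nat.cast_pow, ← pow_mul, ← pow_mul, mul_comm c₂ g, ← hc₂, mul_comm]
      rw [e1, e2]
      ring
    rw [e]
    exact h.mul_right _
  have hlte := Int.two_pow_sub_pow' g (x := X) (y := Y) (by omega) (by omega)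
  have hv : (v : ℕ∞) ≤ emultiplicity 2 (X ^ g - Y ^ g) := le_emultiplicity_of_pow_dvd hdvd
  rw [hlte] at hv
  have he1 : emultiplicity (2 : ℤ) (X - Y) < ((3 * (2 ^ 32 * (2 * l) ^ 4 * (2 * A) ^ 2) : ℕ) : ℕ∞) := by
    rw [emultiplicity_lt_iff_not_dvd, pow_mul]
    exact hmain
  have he2 : emultiplicity (2 : ℤ) (g : ℤ) < ((l + 1 : ℕ) : ℕ∞) := by
    rw [emultiplicity_lt_iff_not_dvd]
    intro hd
    have hd' : 2 ^ (l + 1) ∣ g := by exact_mod_cast hd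
    have := Nat.le_of_dvd hg0 hd'
    rw [pow_succ] at this
    have := Nat.pow_pos (n := l) (show 0 < 2 by norm_num)
    omega
  have hlt : (v : ℕ∞) < ((3 * (2 ^ 32 * (2 * l) ^ 4 * (2 * A) ^ 2) : ℕ) : ℕ∞) + ((l + 1 : ℕ) : ℕ∞) :=
    hv.trans_lt (ENat.add_lt_add he1 he2)
  have hlt' : v < 3 * (2 ^ 32 * (2 * l) ^ 4 * (2 * A) ^ 2) + (l + 1) := by exact_mod_cast hlt
  have e : 3 * (2 ^ 32 * (2 * l) ^ 4 * (2 * A) ^ 2) = 3 * 2 ^ 38 * (A ^ 2 * l ^ 4) := by ring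
  rw [e] at hlt'
  have h3 : l ≤ A ^ 2 * l ^ 4 := by
    have hA2 : 1 ≤ A ^ 2 := Nat.one_le_pow _ _ hA
    have hl3 : l ^ 1 ≤ l ^ 4 := Nat.pow_le_pow_right hl (by norm_num)
    nlinarith
  nlinarith

end TL95
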