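import Pool.Agent.LibTL95.Comb
namespace TL95

/-- Expand with `det_expand` (`v i t j = A i t * B t j`, `e i j = q^N * E i j`). A term `f` with
`f i = f i' = some t`, `i ≠ i'`, vanishes: its rows are `A i t • B t` and `A i' t • B t`. Otherwise
the determinant is divisible by `∏_i (A i (f i) or q^N)`, hence by `q` to the power
`∑_i ((f i).getD N - k i) ≥ N(N-1)/2 - ∑ k i` (`weight_sum`). -/
theorem det_dvd {ι : Type*} [Fintype ι] [DecidableEq ι] (T : ℕ) (q : ℤ) (k : ι → ℕ)
    (A : ι → ℕ → ℤ) (B : ℕ → ι → ℤ) (E : ι → ι → ℤ) (M : Matrix ι ι ℤ)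
    (hM : ∀ i j, M i j = ∑ t ∈ Finset.range T, A i t * B t j + q ^ (Fintype.card ι) * E i j)
    (hA : ∀ i t, q ^ (t - k i) ∣ A i t) :
    q ^ (Fintype.card ι * (Fintype.card ι - 1) / 2 - ∑ i, k i) ∣ M.det := by
  rw [det_expand T (fun i t j => A i t * B t j) (fun i j => q ^ (Fintype.card ι) * E i j) M hM]
  apply Finset.dvd_sum
  intro f _
  have h1 : (Matrix.of fun i j : ι => (f i).elim (q ^ (Fintype.card ι) * E i j)
      (fun t => A i (t : ℕ) * B t j)) = Matrix.of fun i j : ι =>
        ((f i).elim (q ^ (Fintype.card ι)) (fun t => A i (t : ℕ))) *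
          ((f i).elim (E i j) (fun t => B t j)) := by
    ext i j
    rw [Matrix.of_apply, Matrix.of_apply]
    cases f i <;> rfl
  rw [h1, Matrix.det_mul_column]
  by_cases hinj : ∀ i j t, f i = some t → f j = some t → i = j
  · apply Dvd.dvd.mul_right
    have h2 : q ^ (∑ i, (((f i).map (fun t : Fin T => (t : ℕ))).getD (Fintype.card ι) - k i)) ∣
        ∏ i, ((f i).elim (q ^ (Fintype.card ι)) (fun t => A i (t : ℕ))) := by
      rw [← Finset.prod_pow_eq_pow_sum]
      apply Finset.prod_dvd_prod_of_dvd
      intro i _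
      cases hfi : f i with
      | none =>
        simp only [Option.elim, Option.map_none, Option.getD_none]
        exact pow_dvd_pow _ (Nat.sub_le _ _)
      | some t =>
        simp only [Option.elim, Option.map_some, Option.getD_some]
        exact hA i t
    refine dvd_trans (pow_dvd_pow _ ?_) h2
    have h3 := weight_sum (fun i => (f i).map (fun t : Fin T => (t : ℕ))) (by
      intro i j t hi hj
      rw [Option.map_eq_some_iff] at hi hj
      obtain ⟨a, ha, ha'⟩ := hi
      obtain ⟨b, hb, hb'⟩ := hj
      have hab : a = b := Fin.ext (ha'.trans hb'.symm)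
      subst hab
      exact hinj i j a ha hb)
    have h4 : ∑ i, ((f i).map (fun t : Fin T => (t : ℕ))).getD (Fintype.card ι) ≤
        ∑ i, (((f i).map (fun t : Fin T => (t : ℕ))).getD (Fintype.card ι) - k i) + ∑ i, k i := by
      rw [← Finset.sum_add_distrib]
      apply Finset.sum_le_sum
      intro i _
      omega
    omega
  · push Not at hinj
    obtain ⟨i, j, t, hi, hj, hij⟩ := hinj
    have h5 : (Matrix.of fun i j : ι => ((f i).elim (E i j) (fun t => B t j))).det = 0 := by
      apply Matrix.det_zero_of_row_eq hij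
      funext l
      rw [Matrix.of_apply, Matrix.of_apply, hi, hj]
      rfl
    change _ ∣ _ * (Matrix.of fun i j : ι => ((f i).elim (E i j) (fun t => B t j))).det
    rw [h5, mul_zero]
    exact dvd_zero _

end TL95
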