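import Pool.Agent.LibTL95.Weight
namespace TL95

/-- Row-wise bound for a determinant (`Matrix.det_apply`, `Fintype.card_perm`). -/
theorem det_row_bound {ι : Type*} [Fintype ι] [DecidableEq ι] (M : Matrix ι ι ℝ) (u : ι → ℝ)
    (h : ∀ i j, |M i j| ≤ u i) : |M.det| ≤ (Fintype.card ι).factorial * ∏ i, u i := by
  rw [← Matrix.det_transpose, Matrix.det_apply]
  refine (Finset.abs_sum_le_sum_abs _ _).trans ?_
  have h1 : ∀ σ ∈ (Finset.univ : Finset (Equiv.Perm ι)),
      |Equiv.Perm.sign σ • ∏ i, M.transpose (σ i) i| ≤ ∏ i, u i := by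
    intro σ _
    have h2 : |Equiv.Perm.sign σ • ∏ i, M.transpose (σ i) i| = ∏ i, |M i (σ i)| := by
      rcases Int.units_eq_one_or (Equiv.Perm.sign σ) with hs | hs
      · rw [hs, one_smul, Finset.abs_prod]; rfl
      · rw [hs, Units.neg_smul, one_smul, abs_neg, Finset.abs_prod]; rfl
    rw [h2]
    exact Finset.prod_le_prod (fun i _ => abs_nonneg _) (fun i _ => h i (σ i))
  refine (Finset.sum_le_sum h1).trans ?_
  rw [Finset.sum_const, Finset.card_univ, Fintype.card_perm, nsmul_eq_mul]

/-- Multilinear expansion of a determinant whose rows are sums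
(`Matrix.detRowAlternating`, `MultilinearMap.map_sum`, `Fintype.sum_option`). -/
theorem det_expand {ι R : Type*} [Fintype ι] [DecidableEq ι] [CommRing R] (T : ℕ)
    (v : ι → ℕ → ι → R) (e : ι → ι → R) (M : Matrix ι ι R)
    (hM : ∀ i j, M i j = ∑ t ∈ Finset.range T, v i t j + e i j) :
    M.det = ∑ f : ι → Option (Fin T),
      (Matrix.of fun i j : ι => (f i).elim (e i j) (fun t => v i (t : ℕ) j)).det := by
  have h1 : M = fun i => ∑ o : Option (Fin T),
      (fun j => o.elim (e i j) (fun t => v i (t : ℕ) j)) := by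
    funext i
    funext j
    rw [Finset.sum_apply, Fintype.sum_option, hM i j, add_comm, Finset.sum_range]
    rfl
  have h2 := (Matrix.detRowAlternating (n := ι) (R := R)).toMultilinearMap.map_sum
    (fun (i : ι) (o : Option (Fin T)) => (fun j => o.elim (e i j) (fun t => v i (t : ℕ) j)))
  rw [h1]
  exact h2

end TL95
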