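import Mathlib
namespace TL95

/-- `x ≡ 1 (mod 8)` implies `x^(2^W) ≡ 1 (mod 2^(W+3))`. -/
private theorem pow_two_pow_modEq (x : ℤ) (hx : x ≡ 1 [ZMOD 8]) (W : ℕ) :
    x ^ (2 ^ W) ≡ 1 [ZMOD 2 ^ (W + 3)] := by
  induction W with
  | zero => simpa using hx
  | succ W ih =>
    have h1 : (2 : ℤ) ^ (W + 3) ∣ x ^ (2 ^ W) - 1 := (Int.modEq_iff_dvd.1 ih.symm)
    obtain ⟨t, ht⟩ := h1
    apply Int.ModEq.symm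
    rw [Int.modEq_iff_dvd]
    have h2 : x ^ 2 ^ (W + 1) - 1 = (x ^ 2 ^ W - 1) * (x ^ 2 ^ W - 1 + 2) := by
      rw [pow_succ 2 W, pow_mul]; ring
    rw [h2, ht]
    refine ⟨t * (2 ^ (W + 2) * t + 1), ?_⟩
    rw [pow_succ 2 (W + 3), pow_succ 2 (W + 2)]
    ring_nf

/-- If `α₁^b₁ ≡ α₂^b₂ (mod 8^N)` with `α₁ ≡ α₂ ≡ 1 (mod 8)` and `b₁` odd, there is `η ≡ 1 (mod 8)`
with `α₂ ≡ η^b₁`, `α₁ ≡ η^b₂` (mod `8^N`).  Take `b'` with `b₁ b' ≡ 1 (mod 2^W)`, `W` large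
(`W ≥ 3N` works: `α ≡ 1 (mod 8)` implies `α^(2^W) ≡ 1 (mod 2^(W+3))`), and `η = α₂^b'`. Then
`η^b₁ ≡ α₂`, and `α₁^b₁ ≡ α₂^b₂ ≡ η^(b₁b₂)`; raising to the power `b'`:
`α₁ ≡ α₁^(b₁b') ≡ (η^b₂)^(b₁b') ≡ η^b₂`. -/
theorem adic_root (N α₁ α₂ b₁ b₂ : ℕ) (h1 : α₁ % 8 = 1) (h2 : α₂ % 8 = 1) (hb : Odd b₁)
    (h : (8 : ℤ) ^ N ∣ (α₁ : ℤ) ^ b₁ - (α₂ : ℤ) ^ b₂) :
    ∃ η : ℤ, (8 : ℤ) ∣ η - 1 ∧
      ∀ r s : ℕ, (8 : ℤ) ^ N ∣ (α₁ : ℤ) ^ r * (α₂ : ℤ) ^ s - η ^ (r * b₂ + s * b₁) := by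
  have key : ∀ x : ℤ, x ≡ 1 [ZMOD 8] → x ^ (2 ^ (3 * N)) ≡ 1 [ZMOD 8 ^ N] := by
    intro x hx
    have h3 := pow_two_pow_modEq x hx (3 * N)
    refine h3.of_dvd ?_
    have : (8 : ℤ) ^ N = 2 ^ (3 * N) := by rw [pow_mul]; norm_num
    rw [this]
    exact pow_dvd_pow _ (by omega)
  -- b' with b₁ b' = 1 + 2^(3N) t
  obtain ⟨b', t, hb'⟩ : ∃ b' t : ℕ, b₁ * b' = 1 + 2 ^ (3 * N) * t := by
    have hco : b₁.Coprime (2 ^ (3 * N)) := (Nat.Coprime.pow_right _ (Nat.coprime_two_right.2 hb))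
    rcases Nat.eq_zero_or_pos N with hN | hN
    · subst hN
      obtain ⟨c, hc⟩ := hb
      refine ⟨1, 2 * c, by simp; omega⟩
    · have h4 : 1 < 2 ^ (3 * N) := Nat.one_lt_two_pow (by omega)
      obtain ⟨m, hm⟩ := Nat.exists_mul_mod_eq_one_of_coprime hco h4
      refine ⟨m, b₁ * m / 2 ^ (3 * N), ?_⟩
      have := Nat.mod_add_div (b₁ * m) (2 ^ (3 * N))
      rw [hm.2] at this
      exact this.symm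
  have hx1 : (α₁ : ℤ) ≡ 1 [ZMOD 8] := by
    unfold Int.ModEq; omega
  have hx2 : (α₂ : ℤ) ≡ 1 [ZMOD 8] := by
    unfold Int.ModEq; omega
  have hpow : ∀ x : ℤ, x ≡ 1 [ZMOD 8] → x ^ (b₁ * b') ≡ x [ZMOD 8 ^ N] := by
    intro x hx
    rw [hb', pow_add, pow_one, pow_mul]
    have h5 := (key x hx).pow t
    rw [one_pow] at h5
    have h6 := h5.mul_left x
    rwa [mul_one] at h6
  have hη1 : ((α₂ : ℤ) ^ b') ≡ 1 [ZMOD 8] := by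
    have := hx2.pow b'
    rwa [one_pow] at this
  have e2 : ((α₂ : ℤ) ^ b') ^ b₁ ≡ α₂ [ZMOD 8 ^ N] := by
    rw [← pow_mul, mul_comm b' b₁]
    exact hpow _ hx2
  have e1 : ((α₂ : ℤ) ^ b') ^ b₂ ≡ α₁ [ZMOD 8 ^ N] := by
    have h7 : (α₁ : ℤ) ^ b₁ ≡ (α₂ : ℤ) ^ b₂ [ZMOD 8 ^ N] :=
      ((Int.modEq_iff_dvd).2 h).symm
    have h8 := h7.pow b'
    rw [← pow_mul] at h8
    have h9 : ((α₂ : ℤ) ^ b') ^ b₂ = ((α₂ : ℤ) ^ b₂) ^ b' := by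
      rw [← pow_mul, ← pow_mul, mul_comm]
    rw [h9]
    exact h8.symm.trans (hpow _ hx1)
  refine ⟨(α₂ : ℤ) ^ b', (Int.modEq_iff_dvd.1 hη1.symm), fun r s => ?_⟩
  have h10 : ((α₂ : ℤ) ^ b') ^ (r * b₂ + s * b₁) ≡ (α₁ : ℤ) ^ r * (α₂ : ℤ) ^ s [ZMOD 8 ^ N] := by
    have : ((α₂ : ℤ) ^ b') ^ (r * b₂ + s * b₁) =
        (((α₂ : ℤ) ^ b') ^ b₂) ^ r * (((α₂ : ℤ) ^ b') ^ b₁) ^ s := by
      rw [pow_add, mul_comm r b₂, mul_comm s b₁, pow_mul _ b₂ r, pow_mul _ b₁ s]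
    rw [this]
    exact (e1.pow r).mul (e2.pow s)
  exact Int.modEq_iff_dvd.1 h10

end TL95
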