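import Pool.Agent.LibTL95.DetPoly
namespace TL95
open Polynomial

/-- the binomial polynomial -/
private noncomputable def bp (k : ℕ) : ℚ[X] := C ((k.factorial : ℚ)⁻¹) * descPochhammer ℚ k

private theorem bp_eval (k n : ℕ) : (bp k).eval (n : ℚ) = (n.choose k : ℚ) := by
  rw [bp, eval_mul, eval_C, descPochhammer_eval_eq_descFactorial,
    Nat.descFactorial_eq_factorial_mul_choose]
  push_cast
  have : (k.factorial : ℚ) ≠ 0 := by exact_mod_cast k.factorial_ne_zero
  field_simp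

private theorem bp_natDegree (k : ℕ) : (bp k).natDegree ≤ k := by
  rw [bp]
  exact (natDegree_C_mul_le _ _).trans (descPochhammer_natDegree (R := ℚ) k).le

/-- Zero estimate.  Suppose `c ≠ 0`. Let `P_l = ∑_k c_{k,l} choose(X, k)` (a polynomial of degree
`< K`, nonzero iff some `c_{k,l} ≠ 0`; `choose(X,k) = descPochhammer / k!`) and `Q_l = P_l` if
`P_l ≠ 0`, `Q_l = 1` otherwise. Choose `L` distinct points `(r_i, s_i)` of `[0,ρ)²` and put
`τ_i = r_i b₂ + s_i b₁`, `ω_i = α₁^{r_i} α₂^{s_i}` (distinct by `hω`). By `det_poly` the polynomial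
`D(X) = det (Q_l(X + τ_i) ω_i^l)` is nonzero of degree `≤ (K-1) L`. For `(r, s) ∈ [0,T)²` and
`ζ = r b₂ + s b₁`, `W = α₁^r α₂^s`, the hypothesis at `(r_i + r, s_i + s)` says
`∑_l P_l(ζ + τ_i) ω_i^l W^l = 0`, i.e. `∑_{l : P_l ≠ 0} W^l (column l of D(ζ)) = 0`, a nontrivial
relation, so `D(ζ) = 0`. The `T²` values `ζ` are distinct by `hζ`, contradicting `(K-1)L < T²`. -/
theorem zero_estimate {K L ρ T α₁ α₂ b₁ b₂ : ℕ} (hα₁ : 0 < α₁) (hα₂ : 0 < α₂)
    (hω : ∀ r s r' s' : ℕ, α₁ ^ r * α₂ ^ s = α₁ ^ r' * α₂ ^ s' → r = r' ∧ s = s')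
    (hL : L ≤ ρ ^ 2) (hρT : ρ ≤ T)
    (hζ : ∀ r s r' s' : ℕ, r < T → s < T → r' < T → s' < T →
      r * b₂ + s * b₁ = r' * b₂ + s' * b₁ → r = r' ∧ s = s')
    (hT : (K - 1) * L < T ^ 2) (c : Fin K × Fin L → ℚ)
    (hc : ∀ r s : ℕ, r < 2 * T → s < 2 * T →
      ∑ i : Fin K × Fin L, c i * ((Nat.choose (r * b₂ + s * b₁) i.1 : ℚ) *
        ((α₁ : ℚ) ^ r * (α₂ : ℚ) ^ s) ^ (i.2 : ℕ)) = 0) : c = 0 := by
  classical
  by_contra hc0
  -- the polynomials
  let P : Fin L → ℚ[X] := fun l => ∑ k : Fin K, C (c (k, l)) * bp k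
  have hPeval : ∀ l (n : ℕ), (P l).eval (n : ℚ) = ∑ k : Fin K, c (k, l) * (n.choose k : ℚ) := by
    intro l n
    change (∑ k : Fin K, C (c (k, l)) * bp k).eval (n : ℚ) = _
    rw [eval_finsetSum]
    exact Finset.sum_congr rfl (fun k _ => by rw [eval_mul, eval_C, bp_eval])
  have hPdeg : ∀ l, (P l).natDegree ≤ K - 1 := by
    intro l
    apply natDegree_sum_le_of_forall_le
    intro k _
    refine (natDegree_C_mul_le _ _).trans ((bp_natDegree k).trans ?_)
    have := k.2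
    omega
  have hP0 : ∀ l, P l = 0 → ∀ k, c (k, l) = 0 := by
    intro l hl
    have h1 : ∀ n : ℕ, ∑ k : Fin K, c (k, l) * (n.choose k : ℚ) = 0 := by
      intro n
      rw [← hPeval l n, hl, eval_zero]
    have h2 : ∀ n : ℕ, ∀ k : Fin K, (k : ℕ) = n → c (k, l) = 0 := by
      intro n
      induction n using Nat.strong_induction_on with
      | _ n ih =>
        intro k hk
        have h3 := h1 n
        rw [Finset.sum_eq_single k] at h3
        · rw [hk, Nat.choose_self, Nat.cast_one, mul_one] at h3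
          exact h3
        · intro k' _ hne
          rcases lt_trichotomy (k' : ℕ) n with hlt | heq | hgt
          · rw [ih _ hlt k' rfl, zero_mul]
          · exact absurd (Fin.ext (heq.trans hk.symm)) hne
          · rw [Nat.choose_eq_zero_of_lt hgt]
            simp
        · intro h; exact absurd (Finset.mem_univ k) h
    intro k
    exact h2 k k rfl
  let Q : Fin L → ℚ[X] := fun l => if P l = 0 then 1 else P l
  have hQ : ∀ l, Q l ≠ 0 := by
    intro l
    change (if P l = 0 then 1 else P l) ≠ 0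
    split_ifs with h
    · exact one_ne_zero
    · exact h
  have hQdeg : ∀ l, (Q l).natDegree ≤ K - 1 := by
    intro l
    change (if P l = 0 then (1 : ℚ[X]) else P l).natDegree ≤ K - 1
    split_ifs with h
    · simp
    · exact hPdeg l
  -- the points
  let R : Fin L → ℕ := fun i => (i : ℕ) / ρ
  let S : Fin L → ℕ := fun i => (i : ℕ) % ρ
  have hρ0 : ∀ _ : Fin L, 0 < ρ := by
    intro i
    rcases Nat.eq_zero_or_pos ρ with h | h
    · subst h
      have := i.2
      simp at hL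
      omega
    · exact h
  have hR : ∀ i, R i < ρ := by
    intro i
    apply Nat.div_lt_of_lt_mul
    have := i.2
    nlinarith
  have hS : ∀ i, S i < ρ := fun i => Nat.mod_lt _ (hρ0 i)
  let τ : Fin L → ℚ := fun i => ((R i * b₂ + S i * b₁ : ℕ) : ℚ)
  let ω : Fin L → ℚ := fun i => ((α₁ ^ R i * α₂ ^ S i : ℕ) : ℚ)
  have hωinj : Function.Injective ω := by
    intro i j hij
    have hij' : ((α₁ ^ R i * α₂ ^ S i : ℕ) : ℚ) = ((α₁ ^ R j * α₂ ^ S j : ℕ) : ℚ) := hij
    have h1 : α₁ ^ R i * α₂ ^ S i = α₁ ^ R j * α₂ ^ S j := Nat.cast_injective hij'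
    obtain ⟨h2, h3⟩ := hω _ _ _ _ h1
    apply Fin.ext
    rw [← Nat.div_add_mod (i : ℕ) ρ, ← Nat.div_add_mod (j : ℕ) ρ]
    change ρ * R i + S i = ρ * R j + S j
    rw [h2, h3]
  obtain ⟨hD0, hDdeg⟩ := det_poly Q hQ τ ω hωinj
  set D := (Matrix.of fun i l : Fin L => (Q l).comp (X + C (τ i)) * C (ω i ^ (l : ℕ))).det with hD
  have hDdeg' : D.natDegree ≤ (K - 1) * L := by
    refine hDdeg.trans ((Finset.sum_le_sum (fun l _ => hQdeg l)).trans ?_)
    simp [mul_comm]
  -- roots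
  have hroot : ∀ r s : ℕ, r < T → s < T → D.eval (((r * b₂ + s * b₁ : ℕ)) : ℚ) = 0 := by
    intro r s hr hs
    have h1 : D.eval (((r * b₂ + s * b₁ : ℕ)) : ℚ) =
        (Matrix.of fun i l : Fin L => (Q l).eval (((r * b₂ + s * b₁ : ℕ) : ℚ) + τ i) *
          ω i ^ (l : ℕ)).det := by
      have h2 := (evalRingHom (((r * b₂ + s * b₁ : ℕ)) : ℚ)).map_det
        (Matrix.of fun i l : Fin L => (Q l).comp (X + C (τ i)) * C (ω i ^ (l : ℕ)))
      rw [← hD, coe_evalRingHom] at h2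
      rw [h2]
      congr 1
      ext i l
      simp [eval_comp]
    rw [h1]
    apply Matrix.exists_mulVec_eq_zero_iff.1
    let W : ℚ := (α₁ : ℚ) ^ r * (α₂ : ℚ) ^ s
    have hW : W ≠ 0 := by
      have h3 : (α₁ : ℚ) ≠ 0 := by exact_mod_cast hα₁.ne'
      have h4 : (α₂ : ℚ) ≠ 0 := by exact_mod_cast hα₂.ne'
      exact mul_ne_zero (pow_ne_zero _ h3) (pow_ne_zero _ h4)
    refine ⟨fun l => if P l = 0 then 0 else W ^ (l : ℕ), ?_, ?_⟩
    · intro hv
      apply hc0
      funext kl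
      obtain ⟨k, l⟩ := kl
      have h5 : (if P l = 0 then (0 : ℚ) else W ^ (l : ℕ)) = 0 := congrFun hv l
      split_ifs at h5 with h6
      · exact hP0 l h6 k
      · exact absurd h5 (pow_ne_zero _ hW)
    · funext i
      rw [Matrix.mulVec, dotProduct]
      have h7 := hc (r + R i) (s + S i) (by have := hR i; omega) (by have := hS i; omega)
      rw [Fintype.sum_prod_type_right] at h7
      rw [Pi.zero_apply]
      refine Eq.trans ?_ h7
      apply Finset.sum_congr rfl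
      intro l _
      rw [Matrix.of_apply]
      have h8 : ((r * b₂ + s * b₁ : ℕ) : ℚ) + τ i =
          (((r + R i) * b₂ + (s + S i) * b₁ : ℕ) : ℚ) := by
        change ((r * b₂ + s * b₁ : ℕ) : ℚ) + ((R i * b₂ + S i * b₁ : ℕ) : ℚ) = _
        push_cast
        ring
      have h9 : ((α₁ : ℚ) ^ (r + R i) * (α₂ : ℚ) ^ (s + S i)) = ω i * W := by
        change _ = ((α₁ ^ R i * α₂ ^ S i : ℕ) : ℚ) * ((α₁ : ℚ) ^ r * (α₂ : ℚ) ^ s)
        push_cast
        ring
      have h10 : ∑ x : Fin K, c (x, l) * ((((r + R i) * b₂ + (s + S i) * b₁).choose x : ℚ) *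
          ((α₁ : ℚ) ^ (r + R i) * (α₂ : ℚ) ^ (s + S i)) ^ (l : ℕ)) =
          (P l).eval ((((r + R i) * b₂ + (s + S i) * b₁ : ℕ)) : ℚ) * (ω i * W) ^ (l : ℕ) := by
        rw [hPeval, Finset.sum_mul, h9]
        exact Finset.sum_congr rfl (fun x _ => by ring)
      rw [h10, h8]
      change (if P l = 0 then (1 : ℚ[X]) else P l).eval _ * _ * (if P l = 0 then 0 else _) = _
      split_ifs with h11
      · rw [h11]; simp
      · rw [mul_pow]; ring
  -- count
  have hsub : (Finset.univ : Finset (Fin T × Fin T)).image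
      (fun x => (((x.1 : ℕ) * b₂ + (x.2 : ℕ) * b₁ : ℕ) : ℚ)) ⊆ D.roots.toFinset := by
    intro y hy
    rw [Finset.mem_image] at hy
    obtain ⟨x, _, rfl⟩ := hy
    rw [Multiset.mem_toFinset, mem_roots hD0]
    exact hroot _ _ x.1.2 x.2.2
  have hcard := Finset.card_le_card hsub
  rw [Finset.card_image_of_injective] at hcard
  · rw [Finset.card_univ, Fintype.card_prod, Fintype.card_fin] at hcard
    have h12 := (Multiset.toFinset_card_le D.roots).trans (card_roots' D)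
    have h13 := hcard.trans (h12.trans hDdeg')
    rw [← sq] at h13
    omega
  · intro x y hxy
    have hxy' : (((x.1 : ℕ) * b₂ + (x.2 : ℕ) * b₁ : ℕ) : ℚ) =
        (((y.1 : ℕ) * b₂ + (y.2 : ℕ) * b₁ : ℕ) : ℚ) := hxy
    have h14 : (x.1 : ℕ) * b₂ + (x.2 : ℕ) * b₁ = (y.1 : ℕ) * b₂ + (y.2 : ℕ) * b₁ :=
      Nat.cast_injective hxy'
    obtain ⟨h15, h16⟩ := hζ _ _ _ _ x.1.2 x.2.2 y.1.2 y.2.2 h14
    exact Prod.ext (Fin.ext h15) (Fin.ext h16)

end TL95
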