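import Pool.Agent.LibTL95.Minor
import Pool.Agent.LibTL95.Zero
namespace TL95

/-- Apply `exists_minor` over `ℚ` with `J = Fin (2T) × Fin (2T)` and the rows indexed by
`Fin K × Fin L`; linear independence is `zero_estimate`. Then cast the determinant back to `ℤ`
(`Int.cast_det` / `RingHom.map_det`). -/
theorem full_minor {K L ρ T α₁ α₂ b₁ b₂ : ℕ} (hα₁ : 0 < α₁) (hα₂ : 0 < α₂)
    (hω : ∀ r s r' s' : ℕ, α₁ ^ r * α₂ ^ s = α₁ ^ r' * α₂ ^ s' → r = r' ∧ s = s')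
    (hL : L ≤ ρ ^ 2) (hρT : ρ ≤ T)
    (hζ : ∀ r s r' s' : ℕ, r < T → s < T → r' < T → s' < T →
      r * b₂ + s * b₁ = r' * b₂ + s' * b₁ → r = r' ∧ s = s')
    (hT : (K - 1) * L < T ^ 2) :
    ∃ P : Fin K × Fin L → ℕ × ℕ, (∀ i, (P i).1 < 2 * T ∧ (P i).2 < 2 * T) ∧
      (Matrix.of fun i j : Fin K × Fin L =>
        (Nat.choose ((P j).1 * b₂ + (P j).2 * b₁) i.1 : ℤ) *
          ((α₁ : ℤ) ^ (P j).1 * (α₂ : ℤ) ^ (P j).2) ^ (i.2 : ℕ)).det ≠ 0 := by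
  obtain ⟨f, hf⟩ := exists_minor (ι := Fin K × Fin L) (J := Fin (2 * T) × Fin (2 * T)) (F := ℚ)
    (Matrix.of fun i j => (Nat.choose ((j.1 : ℕ) * b₂ + (j.2 : ℕ) * b₁) i.1 : ℚ) *
      ((α₁ : ℚ) ^ (j.1 : ℕ) * (α₂ : ℚ) ^ (j.2 : ℕ)) ^ (i.2 : ℕ)) (by
    intro c hc
    apply zero_estimate hα₁ hα₂ hω hL hρT hζ hT c
    intro r s hr hs
    exact hc (⟨r, hr⟩, ⟨s, hs⟩))
  refine ⟨fun i => ((f i).1, (f i).2), fun i => ⟨(f i).1.2, (f i).2.2⟩, ?_⟩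
  intro h0
  apply hf
  have h1 := (Int.castRingHom ℚ).map_det (Matrix.of fun i j : Fin K × Fin L =>
        (Nat.choose (((f j).1 : ℕ) * b₂ + ((f j).2 : ℕ) * b₁) i.1 : ℤ) *
          ((α₁ : ℤ) ^ ((f j).1 : ℕ) * (α₂ : ℤ) ^ ((f j).2 : ℕ)) ^ (i.2 : ℕ))
  rw [h0, map_zero] at h1
  rw [h1]
  congr 1
  ext i j
  simp

end TL95
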