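import Pool.Agent.LibTL95.Newton
import Pool.Agent.LibTL95.DetDvd
import Pool.Agent.LibTL95.Full
import Pool.Agent.LibTL95.Adic
namespace TL95

private theorem sum_fst (K L : ℕ) : ∑ i : Fin K × Fin L, (i.1 : ℕ) = L * (K * (K - 1) / 2) := by
  rw [Fintype.sum_prod_type_right]
  simp only [Finset.sum_const, Finset.card_univ, Fintype.card_fin, smul_eq_mul]
  rw [← Finset.sum_range (fun k => k), Finset.sum_range_id]

private theorem sum_snd (K L : ℕ) : ∑ i : Fin K × Fin L, (i.2 : ℕ) = K * (L * (L - 1) / 2) := by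
  rw [Fintype.sum_prod_type]
  simp only [Finset.sum_const, Finset.card_univ, Fintype.card_fin, smul_eq_mul]
  rw [← Finset.sum_range (fun k => k), Finset.sum_range_id]

/-- The 2-adic estimate of the interpolation determinant `D ≠ 0` of `full_minor` (`N = K L`).
Upper bound (`det_row_bound`): row `(k, l)` is at most `(4TB)^k (2^(4AT))^l` and
`∑ k = L K(K-1)/2`, `∑ l = K L(L-1)/2`. Lower bound: with `η` from `adic_root`,
`ζ_j = r_j b₂ + s_j b₁` and `1 + w_l = η^l`, `8 ∣ w_l`, the entries are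
`≡ choose(ζ_j, k) (1 + w_l)^{ζ_j}` mod `8^N`, and `newton_identity` gives the shape of `det_dvd`
with `q = 8`, `A = choose t k * w_l^(t-k) * (1+w_l)^k`, `B = choose ζ_j t`; so
`8^(N(N-1)/2 - L K(K-1)/2) ≤ |D|`. -/
theorem adic_det {K L ρ T A B α₁ α₂ b₁ b₂ : ℕ} (h1 : α₁ % 8 = 1) (h2 : α₂ % 8 = 1)
    (hA1 : α₁ ≤ 2 ^ A) (hA2 : α₂ ≤ 2 ^ A) (hB1 : b₁ ≤ B) (hB2 : b₂ ≤ B) (hb : Odd b₁)
    (hω : ∀ r s r' s' : ℕ, α₁ ^ r * α₂ ^ s = α₁ ^ r' * α₂ ^ s' → r = r' ∧ s = s')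
    (hL : L ≤ ρ ^ 2) (hρT : ρ ≤ T)
    (hζ : ∀ r s r' s' : ℕ, r < T → s < T → r' < T → s' < T →
      r * b₂ + s * b₁ = r' * b₂ + s' * b₁ → r = r' ∧ s = s')
    (hT : (K - 1) * L < T ^ 2)
    (h : (8 : ℤ) ^ (K * L) ∣ (α₁ : ℤ) ^ b₁ - (α₂ : ℤ) ^ b₂) :
    8 ^ (K * L * (K * L - 1) / 2 - L * (K * (K - 1) / 2)) ≤
      (K * L).factorial * (4 * T * B) ^ (L * (K * (K - 1) / 2)) *
        (2 ^ (4 * A * T)) ^ (K * (L * (L - 1) / 2)) := by
  obtain ⟨P, hP, hdet⟩ := full_minor (K := K) (L := L) (ρ := ρ) (T := T) (α₁ := α₁) (α₂ := α₂)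
    (b₁ := b₁) (b₂ := b₂) (by omega) (by omega) hω hL hρT hζ hT
  obtain ⟨η, hη, hcong⟩ := adic_root (K * L) α₁ α₂ b₁ b₂ h1 h2 hb h
  set M : Matrix (Fin K × Fin L) (Fin K × Fin L) ℤ := Matrix.of fun i j =>
        (Nat.choose ((P j).1 * b₂ + (P j).2 * b₁) i.1 : ℤ) *
          ((α₁ : ℤ) ^ (P j).1 * (α₂ : ℤ) ^ (P j).2) ^ (i.2 : ℕ) with hM
  have hcard : Fintype.card (Fin K × Fin L) = K * L := by simp
  -- bounds on ζ
  have hζle : ∀ j, (P j).1 * b₂ + (P j).2 * b₁ ≤ 4 * T * B := by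
    intro j
    have e1 : (P j).1 * b₂ ≤ (2 * T) * B := Nat.mul_le_mul (hP j).1.le hB2
    have e2 : (P j).2 * b₁ ≤ (2 * T) * B := Nat.mul_le_mul (hP j).2.le hB1
    nlinarith
  -- lower bound: divisibility
  have hdvd : (8 : ℤ) ^ (K * L * (K * L - 1) / 2 - L * (K * (K - 1) / 2)) ∣ M.det := by
    have key := det_dvd (ι := Fin K × Fin L) (4 * T * B + 1) 8 (fun i => (i.1 : ℕ))
      (fun i t => (Nat.choose t i.1 : ℤ) * (η ^ (i.2 : ℕ) - 1) ^ (t - (i.1 : ℕ)) *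
        (1 + (η ^ (i.2 : ℕ) - 1)) ^ (i.1 : ℕ))
      (fun t j => (Nat.choose ((P j).1 * b₂ + (P j).2 * b₁) t : ℤ))
      (fun i j => (M i j - (Nat.choose ((P j).1 * b₂ + (P j).2 * b₁) i.1 : ℤ) *
        (1 + (η ^ (i.2 : ℕ) - 1)) ^ ((P j).1 * b₂ + (P j).2 * b₁)) / 8 ^ (K * L)) M ?_ ?_
    · rw [hcard, sum_fst] at key
      exact key
    · intro i j
      rw [hcard, ← newton_identity (η ^ (i.2 : ℕ) - 1) ((P j).1 * b₂ + (P j).2 * b₁) i.1
        (4 * T * B + 1) (by have := hζle j; omega)]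
      rw [Int.mul_ediv_cancel']
      · ring
      · rw [hM, Matrix.of_apply, ← mul_sub]
        apply Dvd.dvd.mul_left
        have e1 : (1 + (η ^ (i.2 : ℕ) - 1)) ^ ((P j).1 * b₂ + (P j).2 * b₁) =
            (η ^ ((P j).1 * b₂ + (P j).2 * b₁)) ^ (i.2 : ℕ) := by
          rw [add_sub_cancel, ← pow_mul, ← pow_mul, mul_comm]
        rw [e1]
        exact (hcong (P j).1 (P j).2).trans (sub_dvd_pow_sub_pow _ _ _)
    · intro i t
      have e1 : (8 : ℤ) ∣ η ^ (i.2 : ℕ) - 1 := by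
        have := sub_dvd_pow_sub_pow η 1 (i.2 : ℕ)
        rw [one_pow] at this
        exact hη.trans this
      have e2 : (8 : ℤ) ^ (t - (i.1 : ℕ)) ∣ (η ^ (i.2 : ℕ) - 1) ^ (t - (i.1 : ℕ)) :=
        pow_dvd_pow_of_dvd e1 _
      exact Dvd.dvd.mul_right (Dvd.dvd.mul_left e2 _) _
  have hlow : (8 : ℤ) ^ (K * L * (K * L - 1) / 2 - L * (K * (K - 1) / 2)) ≤ |M.det| := by
    have e1 := Int.le_of_dvd (abs_pos.2 hdet) ((dvd_abs _ _).2 hdvd)
    exact e1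
  -- upper bound
  have hup : |((M.det : ℤ) : ℝ)| ≤ ((K * L).factorial : ℝ) *
      ((4 * T * B : ℕ) : ℝ) ^ (L * (K * (K - 1) / 2)) *
        (((2 ^ (4 * A * T) : ℕ) : ℝ)) ^ (K * (L * (L - 1) / 2)) := by
    have e0 := (Int.castRingHom ℝ).map_det M
    have e1 := det_row_bound ((Int.castRingHom ℝ).mapMatrix M)
      (fun i => ((4 * T * B : ℕ) : ℝ) ^ (i.1 : ℕ) * (((2 ^ (4 * A * T) : ℕ) : ℝ)) ^ (i.2 : ℕ)) (by
      intro i j
      rw [RingHom.mapMatrix_apply, Matrix.map_apply, hM, Matrix.of_apply]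
      have e2 : (((P j).1 * b₂ + (P j).2 * b₁).choose i.1 : ℕ) ≤ (4 * T * B) ^ (i.1 : ℕ) :=
        (Nat.choose_le_pow _ _).trans (Nat.pow_le_pow_left (hζle j) _)
      have e3 : α₁ ^ (P j).1 * α₂ ^ (P j).2 ≤ 2 ^ (4 * A * T) := by
        calc α₁ ^ (P j).1 * α₂ ^ (P j).2 ≤ (2 ^ A) ^ (P j).1 * (2 ^ A) ^ (P j).2 :=
              Nat.mul_le_mul (Nat.pow_le_pow_left hA1 _) (Nat.pow_le_pow_left hA2 _)
          _ = 2 ^ (A * (P j).1 + A * (P j).2) := by rw [← pow_mul, ← pow_mul, ← pow_add]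
          _ ≤ 2 ^ (4 * A * T) := by
            apply Nat.pow_le_pow_right (by norm_num)
            have f1 : A * (P j).1 ≤ A * (2 * T) := Nat.mul_le_mul_left _ (hP j).1.le
            have f2 : A * (P j).2 ≤ A * (2 * T) := Nat.mul_le_mul_left _ (hP j).2.le
            nlinarith
      have e4 : (((((P j).1 * b₂ + (P j).2 * b₁).choose i.1 : ℕ) *
          (α₁ ^ (P j).1 * α₂ ^ (P j).2) ^ (i.2 : ℕ) : ℕ) : ℝ) ≤
          (((4 * T * B) ^ (i.1 : ℕ) * (2 ^ (4 * A * T)) ^ (i.2 : ℕ) : ℕ) : ℝ) := by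
        apply Nat.cast_le.2
        exact Nat.mul_le_mul e2 (Nat.pow_le_pow_left e3 _)
      have e5 : (Int.castRingHom ℝ) ((((P j).1 * b₂ + (P j).2 * b₁).choose i.1 : ℤ) *
          ((α₁ : ℤ) ^ (P j).1 * (α₂ : ℤ) ^ (P j).2) ^ (i.2 : ℕ)) =
          (((((P j).1 * b₂ + (P j).2 * b₁).choose i.1 : ℕ) *
          (α₁ ^ (P j).1 * α₂ ^ (P j).2) ^ (i.2 : ℕ) : ℕ) : ℝ) := by
        simp
      rw [e5, abs_of_nonneg (Nat.cast_nonneg _)]
      refine e4.trans (le_of_eq ?_)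
      push_cast
      ring)
    rw [← e0, hcard] at e1
    refine e1.trans (le_of_eq ?_)
    rw [Finset.prod_mul_distrib, Finset.prod_pow_eq_pow_sum, Finset.prod_pow_eq_pow_sum, sum_fst,
      sum_snd]
    exact (mul_assoc _ _ _).symm
  have hfin : ((8 ^ (K * L * (K * L - 1) / 2 - L * (K * (K - 1) / 2)) : ℕ) : ℝ) ≤
      (((K * L).factorial * (4 * T * B) ^ (L * (K * (K - 1) / 2)) *
        (2 ^ (4 * A * T)) ^ (K * (L * (L - 1) / 2)) : ℕ) : ℝ) := by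
    have e1 : (((8 : ℤ) ^ (K * L * (K * L - 1) / 2 - L * (K * (K - 1) / 2)) : ℤ) : ℝ) ≤
        ((|M.det| : ℤ) : ℝ) := by exact_mod_cast hlow
    rw [Int.cast_abs] at e1
    have e2 := e1.trans hup
    push_cast at e2 ⊢
    exact e2
  exact_mod_cast hfin

end TL95
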