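import Mathlib
namespace TL95

private theorem na_tri (n : ℕ) : 2 * (n * (n - 1) / 2) + n = n ^ 2 := by
  have h : 2 * (n * (n - 1) / 2) = n * (n - 1) := Nat.mul_div_cancel' (Nat.even_mul_pred_self n).two_dvd
  rw [h]
  cases n with
  | zero => rfl
  | succ m => simp only [Nat.add_sub_cancel]; ring

/-- With `N = κ²ρ² = 2^32 l^4 A^2 ≤ 2^(32+6l)`: `N! ≤ N^N ≤ 2^((32+6l)N)`,
`4κρB = 2^18 l^2 A B ≤ 2^(18+4l)`, so in base 2 the exponent on the left is at most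
`(32+6l) N + (18+4l) ρ²κ⁴/2 + 2 A κ³ρ⁵`, where `ρ²κ⁴ = N²/ρ² = N²/(256 l²)` and
`A κ³ρ⁵ = N²/256`; the exponent on the right is `3 (N² - ρ²κ⁴)/2 = (3/2)(1 - 1/ρ²) N²`. -/
theorem num_adic {l A B ρ κ : ℕ} (hl : 1 ≤ l) (hA : 1 ≤ A) (hAl : A ≤ 2 ^ l) (hBl : B ≤ 2 ^ l)
    (hρ : ρ = 16 * l) (hκ : κ = 256 * ρ * A) :
    (κ ^ 2 * ρ ^ 2).factorial * (4 * (κ * ρ) * B) ^ (ρ ^ 2 * (κ ^ 2 * (κ ^ 2 - 1) / 2)) *
        (2 ^ (4 * A * (κ * ρ))) ^ (κ ^ 2 * (ρ ^ 2 * (ρ ^ 2 - 1) / 2)) <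
      8 ^ (κ ^ 2 * ρ ^ 2 * (κ ^ 2 * ρ ^ 2 - 1) / 2 - ρ ^ 2 * (κ ^ 2 * (κ ^ 2 - 1) / 2)) := by
  have hll : l ≤ 2 ^ l := (Nat.lt_pow_self (by norm_num)).le
  have h64 : 64 * (4 * A * (κ * ρ)) = κ ^ 2 := by rw [hκ]; ring
  have hkr : κ ^ 2 = 65536 * ρ ^ 2 * A ^ 2 := by rw [hκ]; ring
  have hr : ρ ^ 2 = 256 * l ^ 2 := by rw [hρ]; ring
  have hN : κ ^ 2 * ρ ^ 2 ≤ 2 ^ (32 + 6 * l) := by
    rw [hkr, hr]
    calc 65536 * (256 * l ^ 2) * A ^ 2 * (256 * l ^ 2) = 2 ^ 32 * (l ^ 4 * A ^ 2) := by ring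
      _ ≤ 2 ^ 32 * ((2 ^ l) ^ 4 * (2 ^ l) ^ 2) := by gcongr
      _ = 2 ^ (32 + 6 * l) := by rw [pow_add]; ring
  have h4 : 4 * (κ * ρ) * B ≤ 2 ^ (18 + 4 * l) := by
    rw [hκ, hρ]
    calc 4 * (256 * (16 * l) * A * (16 * l)) * B = 2 ^ 18 * (l ^ 2 * A * B) := by ring
      _ ≤ 2 ^ 18 * ((2 ^ l) ^ 2 * 2 ^ l * 2 ^ l) := by gcongr
      _ = 2 ^ (18 + 4 * l) := by rw [pow_add]; ring
  have hA2 : 1 ≤ A ^ 2 := Nat.one_le_pow _ _ hA
  have hl2 : 1 ≤ l ^ 2 := Nat.one_le_pow _ _ hl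
  generalize 4 * A * (κ * ρ) = c at h64 ⊢
  generalize 4 * (κ * ρ) * B = d at h4 ⊢
  generalize hk : κ ^ 2 = k at *
  generalize hrr : ρ ^ 2 = r at *
  have tN := na_tri (k * r)
  have tk := na_tri k
  have tr := na_tri r
  generalize hTN : k * r * (k * r - 1) / 2 = TN at *
  generalize hTk : k * (k - 1) / 2 = Tk at *
  generalize hTr : r * (r - 1) / 2 = Tr at *
  have hr256 : 256 * l ≤ r := by rw [hr]; nlinarith
  have hkbig : 16777216 * l ≤ k := by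
    rw [hkr, hr]
    nlinarith [Nat.mul_le_mul hl2 hA2, Nat.mul_le_mul (show l ≤ l ^ 2 by nlinarith) hA2]
  -- `TN - r Tk = k² Tr`
  have hM : TN = k ^ 2 * Tr + r * Tk := by
    have h1 : 2 * TN + k * r = 2 * (k ^ 2 * Tr + r * Tk) + k * r := by
      calc 2 * TN + k * r = (k * r) ^ 2 := tN
        _ = k ^ 2 * r ^ 2 := by ring
        _ = k ^ 2 * (2 * Tr + r) := by rw [tr]
        _ = 2 * (k ^ 2 * Tr) + r * k ^ 2 := by ring
        _ = 2 * (k ^ 2 * Tr) + r * (2 * Tk + k) := by rw [tk]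
        _ = 2 * (k ^ 2 * Tr + r * Tk) + k * r := by ring
    omega
  rw [hM, Nat.add_sub_cancel]
  have hfac : (k * r).factorial ≤ 2 ^ ((32 + 6 * l) * (k * r)) := by
    calc (k * r).factorial ≤ (k * r) ^ (k * r) := Nat.factorial_le_pow _
      _ ≤ (2 ^ (32 + 6 * l)) ^ (k * r) := by gcongr
      _ = 2 ^ ((32 + 6 * l) * (k * r)) := by rw [← pow_mul]
  have hmid : d ^ (r * Tk) ≤ 2 ^ ((18 + 4 * l) * (r * Tk)) := by
    calc d ^ (r * Tk) ≤ (2 ^ (18 + 4 * l)) ^ (r * Tk) := by gcongr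
      _ = 2 ^ ((18 + 4 * l) * (r * Tk)) := by rw [← pow_mul]
  have hlast : (2 ^ c) ^ (k * Tr) = 2 ^ (c * (k * Tr)) := by rw [← pow_mul]
  have h8 : (8 : ℕ) ^ (k ^ 2 * Tr) = 2 ^ (3 * (k ^ 2 * Tr)) := by
    rw [show (8 : ℕ) = 2 ^ 3 by norm_num, ← pow_mul]
  rw [hlast, h8]
  calc (k * r).factorial * d ^ (r * Tk) * 2 ^ (c * (k * Tr))
      ≤ 2 ^ ((32 + 6 * l) * (k * r)) * 2 ^ ((18 + 4 * l) * (r * Tk)) * 2 ^ (c * (k * Tr)) := by
        gcongr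
    _ = 2 ^ ((32 + 6 * l) * (k * r) + (18 + 4 * l) * (r * Tk) + c * (k * Tr)) := by
        rw [← pow_add, ← pow_add]
    _ < 2 ^ (3 * (k ^ 2 * Tr)) := by
        apply Nat.pow_lt_pow_right (by norm_num)
        -- all terms against `k² Tr`
        have e1 : 64 * (c * (k * Tr)) = k ^ 2 * Tr := by
          calc 64 * (c * (k * Tr)) = (64 * c) * k * Tr := by ring
            _ = k ^ 2 * Tr := by rw [h64]; ring
        have hr1 : 255 * l * r ≤ 2 * Tr := by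
          have : r ^ 2 = r * r := by ring
          nlinarith
        have e2 : 255 * l * r * k ^ 2 ≤ 2 * (k ^ 2 * Tr) := by
          calc 255 * l * r * k ^ 2 ≤ (2 * Tr) * k ^ 2 := by gcongr
            _ = 2 * (k ^ 2 * Tr) := by ring
        have e3 : 2 * (r * Tk) ≤ r * k ^ 2 := by
          calc 2 * (r * Tk) ≤ r * (2 * Tk + k) := by nlinarith
            _ = r * k ^ 2 := by rw [tk]
        have e4 : (32 + 6 * l) * (k * r) ≤ l * r * k ^ 2 := by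
          have : (32 + 6 * l) ≤ l * k := by nlinarith
          calc (32 + 6 * l) * (k * r) ≤ (l * k) * (k * r) := by gcongr
            _ = l * r * k ^ 2 := by ring
        have e5 : (18 + 4 * l) * (r * Tk) ≤ 11 * l * r * k ^ 2 := by
          calc (18 + 4 * l) * (r * Tk) ≤ (22 * l) * (r * Tk) := by
                apply Nat.mul_le_mul_right; omega
            _ = 11 * l * (2 * (r * Tk)) := by ring
            _ ≤ 11 * l * (r * k ^ 2) := by gcongr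
            _ = 11 * l * r * k ^ 2 := by ring
        have hpos : 0 < l * r * k ^ 2 := by
          have : 0 < k := by omega
          have : 0 < r := by omega
          positivity
        have e6 : 255 * l * r * k ^ 2 = 255 * (l * r * k ^ 2) := by ring
        have e7 : 11 * l * r * k ^ 2 = 11 * (l * r * k ^ 2) := by ring
        rw [e6] at e2
        rw [e7] at e5
        omega

end TL95
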