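import Pool.Agent.LibTL95.Inj
import Pool.Agent.LibTL95.NumAdic
import Pool.Agent.LibTL95.AdicDet
namespace TL95

private theorem adicCop_aux {l A α₁ α₂ b₁ b₂ ρ κ : ℕ} (hl : 1 ≤ l) (hA : 1 ≤ A) (hAl : A ≤ 2 ^ l)
    (hρ : ρ = 16 * l) (hκ : κ = 256 * ρ * A)
    (hb1 : 0 < b₁) (hb2 : 0 < b₂) (hb1l : b₁ ≤ 2 ^ l) (hb2l : b₂ ≤ 2 ^ l) (hco : b₁.Coprime b₂)
    (h1 : α₁ % 8 = 1) (h2 : α₂ % 8 = 1) (h1' : 2 ≤ α₁) (h2' : 2 ≤ α₂)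
    (hA1 : α₁ ≤ 2 ^ A) (hA2 : α₂ ≤ 2 ^ A)
    (hMI : ∀ i j : ℕ, α₁ ^ i = α₂ ^ j → i = 0 ∧ j = 0)
    (hT : κ * ρ ≤ b₁ ∨ κ * ρ ≤ b₂) (hodd : Odd b₁)
    (h : (8 : ℤ) ^ (κ ^ 2 * ρ ^ 2) ∣ (α₁ : ℤ) ^ b₁ - (α₂ : ℤ) ^ b₂) : False := by
  have hρ1 : 1 ≤ ρ := by omega
  have hκ1 : 1 ≤ κ := by
    rw [hκ]; exact Nat.one_le_iff_ne_zero.mpr (by positivity)
  have hK : 1 ≤ κ ^ 2 := Nat.one_le_pow _ _ hκ1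
  have hL : 1 ≤ ρ ^ 2 := Nat.one_le_pow _ _ hρ1
  have h3 := adic_det (K := κ ^ 2) (L := ρ ^ 2) (ρ := ρ) (T := κ * ρ) (A := A) (B := 2 ^ l)
    (α₁ := α₁) (α₂ := α₂) (b₁ := b₁) (b₂ := b₂) h1 h2 hA1 hA2 hb1l hb2l hodd
    (omega_inj h1' h2' hMI) le_rfl (Nat.le_mul_of_pos_left _ hκ1) (zeta_inj hb1 hb2 hco hT)
    (by
      rw [mul_pow]
      exact Nat.mul_lt_mul_of_pos_right (Nat.sub_lt hK one_pos) hL) h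
  have h4 := num_adic (B := 2 ^ l) hl hA hAl le_rfl hρ hκ
  exact absurd h3 (not_le.mpr h4)

/-- Put `ρ = 16 l`, `κ = 256 ρ A`, `K = κ²`, `L = ρ²`, `T = κρ`, `N = K L = 2^32 l^4 A^2`.
If `b₁, b₂ < T` then `0 < |α₁^b₁ - α₂^b₂| < 2^(A T) ≤ 8^N` (it is nonzero by `hMI`).
Otherwise `zeta_inj` applies (`(K-1) L < T² = K L`); one of `b₁, b₂` is odd, and `adic_det`
(applied to `(α₁, b₁), (α₂, b₂)` or with the roles exchanged) contradicts `num_adic`. -/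
theorem adic_coprime {l A α₁ α₂ b₁ b₂ : ℕ} (hl : 1 ≤ l) (hA : 1 ≤ A) (hAl : A ≤ 2 ^ l)
    (hb1 : 0 < b₁) (hb2 : 0 < b₂) (hb1l : b₁ ≤ 2 ^ l) (hb2l : b₂ ≤ 2 ^ l) (hco : b₁.Coprime b₂)
    (h1 : α₁ % 8 = 1) (h2 : α₂ % 8 = 1) (h1' : 2 ≤ α₁) (h2' : 2 ≤ α₂)
    (hA1 : α₁ ≤ 2 ^ A) (hA2 : α₂ ≤ 2 ^ A)
    (hMI : ∀ i j : ℕ, α₁ ^ i = α₂ ^ j → i = 0 ∧ j = 0) :
    ¬ (8 : ℤ) ^ (2 ^ 32 * l ^ 4 * A ^ 2) ∣ (α₁ : ℤ) ^ b₁ - (α₂ : ℤ) ^ b₂ := by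
  intro h
  obtain ⟨ρ, hρ⟩ : ∃ ρ, ρ = 16 * l := ⟨_, rfl⟩
  obtain ⟨κ, hκ⟩ : ∃ κ, κ = 256 * ρ * A := ⟨_, rfl⟩
  have hN : 2 ^ 32 * l ^ 4 * A ^ 2 = κ ^ 2 * ρ ^ 2 := by
    rw [hκ, hρ]; ring
  rw [hN] at h
  have hρ1 : 1 ≤ ρ := by omega
  have hκA : A ≤ κ := by
    rw [hκ]; exact Nat.le_mul_of_pos_left _ (by positivity)
  have hκ1 : 1 ≤ κ := hA.trans hκA
  by_cases hT : κ * ρ ≤ b₁ ∨ κ * ρ ≤ b₂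
  · rcases Nat.even_or_odd b₁ with he | ho
    · have ho2 : Odd b₂ := by
        rw [← Nat.not_even_iff_odd]
        intro he2
        have h3 : 2 ∣ b₁.gcd b₂ := Nat.dvd_gcd he.two_dvd he2.two_dvd
        rw [hco] at h3
        omega
      exact adicCop_aux hl hA hAl hρ hκ hb2 hb1 hb2l hb1l hco.symm h2 h1 h2' h1' hA2 hA1
        (fun i j hij => (hMI j i hij.symm).symm) hT.symm ho2 ((dvd_sub_comm).mp h)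
    · exact adicCop_aux hl hA hAl hρ hκ hb1 hb2 hb1l hb2l hco h1 h2 h1' h2' hA1 hA2 hMI hT ho h
  · push Not at hT
    obtain ⟨hT1, hT2⟩ := hT
    have key : ∀ (α b : ℕ), α ≤ 2 ^ A → b < κ * ρ → α ^ b ≤ 8 ^ (κ ^ 2 * ρ ^ 2) := by
      intro α b hα hb
      calc α ^ b ≤ (2 ^ A) ^ b := Nat.pow_le_pow_left hα b
        _ = 2 ^ (A * b) := (pow_mul 2 A b).symm
        _ ≤ 2 ^ (3 * (κ ^ 2 * ρ ^ 2)) := by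
            apply Nat.pow_le_pow_right (by norm_num)
            calc A * b ≤ (κ * ρ) * (κ * ρ) :=
                  Nat.mul_le_mul (hκA.trans (Nat.le_mul_of_pos_right _ hρ1)) hb.le
              _ = κ ^ 2 * ρ ^ 2 := by ring
              _ ≤ 3 * (κ ^ 2 * ρ ^ 2) := by omega
        _ = 8 ^ (κ ^ 2 * ρ ^ 2) := by rw [pow_mul]; norm_num
    have k1 := key α₁ b₁ hA1 hT1
    have k2 := key α₂ b₂ hA2 hT2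
    have p1 : 0 < α₁ ^ b₁ := by positivity
    have p2 : 0 < α₂ ^ b₂ := by positivity
    have h0 : (α₁ : ℤ) ^ b₁ - (α₂ : ℤ) ^ b₂ = 0 := by
      apply Int.eq_zero_of_abs_lt_dvd h
      have q1 : (α₁ : ℤ) ^ b₁ ≤ 8 ^ (κ ^ 2 * ρ ^ 2) := by exact_mod_cast k1
      have q2 : (α₂ : ℤ) ^ b₂ ≤ 8 ^ (κ ^ 2 * ρ ^ 2) := by exact_mod_cast k2
      have q3 : (0 : ℤ) < (α₁ : ℤ) ^ b₁ := by exact_mod_cast p1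
      have q4 : (0 : ℤ) < (α₂ : ℤ) ^ b₂ := by exact_mod_cast p2
      rw [abs_lt]
      constructor <;> linarith
    have h5 : α₁ ^ b₁ = α₂ ^ b₂ := by
      have : (α₁ : ℤ) ^ b₁ = (α₂ : ℤ) ^ b₂ := by linarith
      exact_mod_cast this
    have := (hMI b₁ b₂ h5).1
    omega

end TL95
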