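import Mathlib
namespace TL95

/-- Pointwise estimates for `arch_det`. Write `a_i = log α_i`, `Λ = b₂a₂ - b₁a₁`,
`ζ = r b₂ + s b₁`, `1 + w = exp (l a₂ / b₁)`. Then
`α₁^r α₂^s = exp (ζ a₂ / b₁ - r Λ / b₁)`; `l a₂ / b₁ ≤ L A / T ≤ 1/4` so `w ≤ 2 l a₂ / b₁ ≤ 1` and
`w ζ ≤ 2 l (r (a₁ + Λ/b₁) + s a₂) ≤ 4 L T (a₁ + a₂ + 1) ≤ 12 L T A`; finally
`|exp (-l r Λ / b₁) - 1| ≤ 2 l r |Λ| ≤ 4 L T |Λ|` and `l ζ a₂ / b₁ ≤ 12 L T A`. -/
theorem arch_pt {L T A B α₁ α₂ b₁ b₂ l r s : ℕ} (hα₁ : 2 ≤ α₁) (hα₂ : 2 ≤ α₂)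
    (hA1 : α₁ ≤ 2 ^ A) (hA2 : α₂ ≤ 2 ^ A) (hA : 1 ≤ A) (hB1 : b₁ ≤ B) (hB2 : b₂ ≤ B)
    (hb : T ≤ b₁) (hLT : 4 * L * A ≤ T) (hL1 : 1 ≤ L) (hl : l < L) (hr : r < 2 * T)
    (hs : s < 2 * T)
    (hΛ : |(b₂ : ℝ) * Real.log α₂ - (b₁ : ℝ) * Real.log α₁| * (4 * L * T) ≤ 1) :
    ∃ w : ℝ, 0 ≤ w ∧ w ≤ 1 ∧ w * ((r * b₂ + s * b₁ : ℕ) : ℝ) ≤ 12 * L * T * A ∧
      1 + w = Real.exp (l * Real.log α₂ / b₁) ∧
      ((r * b₂ + s * b₁ : ℕ) : ℝ) ≤ 4 * T * B ∧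
      |((α₁ : ℝ) ^ r * (α₂ : ℝ) ^ s) ^ l - (1 + w) ^ (r * b₂ + s * b₁)| ≤
        |(b₂ : ℝ) * Real.log α₂ - (b₁ : ℝ) * Real.log α₁| * (4 * L * T) *
          Real.exp (12 * L * T * A) := by
  have hT1 : 4 ≤ T := by nlinarith
  have hb1 : 0 < b₁ := by omega
  have hb1R : (0 : ℝ) < b₁ := by exact_mod_cast hb1
  have hLR : (1 : ℝ) ≤ L := by exact_mod_cast hL1
  have hTR : (4 : ℝ) ≤ T := by exact_mod_cast hT1
  have hAR : (1 : ℝ) ≤ A := by exact_mod_cast hA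
  have hlR : (l : ℝ) ≤ L := by exact_mod_cast hl.le
  have hl0 : (0 : ℝ) ≤ l := Nat.cast_nonneg _
  have hrR : (r : ℝ) ≤ 2 * T := by exact_mod_cast hr.le
  have hr0 : (0 : ℝ) ≤ r := Nat.cast_nonneg _
  have hsR : (s : ℝ) ≤ 2 * T := by exact_mod_cast hs.le
  have hs0 : (0 : ℝ) ≤ s := Nat.cast_nonneg _
  have hLTR : 4 * (L : ℝ) * A ≤ T := by exact_mod_cast hLT
  have hbR : (T : ℝ) ≤ b₁ := by exact_mod_cast hb
  have hα₁0 : (0 : ℝ) < α₁ := by exact_mod_cast (by omega : 0 < α₁)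
  have hα₂0 : (0 : ℝ) < α₂ := by exact_mod_cast (by omega : 0 < α₂)
  have hlog2 : Real.log 2 ≤ 1 := by
    have := Real.log_two_lt_d9
    linarith
  have ha1 : Real.log α₁ ≤ A := by
    have h1 : Real.log α₁ ≤ Real.log ((2 : ℝ) ^ A) := by
      apply Real.log_le_log hα₁0
      exact_mod_cast hA1
    rw [Real.log_pow] at h1
    nlinarith
  have ha2 : Real.log α₂ ≤ A := by
    have h1 : Real.log α₂ ≤ Real.log ((2 : ℝ) ^ A) := by
      apply Real.log_le_log hα₂0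
      exact_mod_cast hA2
    rw [Real.log_pow] at h1
    nlinarith
  have ha10 : 0 ≤ Real.log α₁ := Real.log_natCast_nonneg _
  have ha20 : 0 ≤ Real.log α₂ := Real.log_natCast_nonneg _
  set a₁ := Real.log α₁ with ha₁
  set a₂ := Real.log α₂ with ha₂
  set Λ : ℝ := (b₂ : ℝ) * a₂ - (b₁ : ℝ) * a₁ with hΛdef
  have hΛ1 : |Λ| ≤ 1 := by
    have : 1 ≤ 4 * (L : ℝ) * T := by nlinarith
    have h0 := abs_nonneg Λ
    nlinarith
  set x : ℝ := l * a₂ / b₁ with hx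
  have hx0 : 0 ≤ x := by positivity
  have hx1 : x ≤ 1 / 4 := by
    rw [hx, div_le_iff₀ hb1R]
    have : (l : ℝ) * a₂ ≤ L * A := mul_le_mul hlR ha2 ha20 (by linarith)
    linarith
  -- the bound for ζ x
  set ζ : ℝ := ((r * b₂ + s * b₁ : ℕ) : ℝ) with hζ
  have hζ0 : 0 ≤ ζ := Nat.cast_nonneg _
  have hζeq : ζ = r * b₂ + s * b₁ := by rw [hζ]; push_cast; ring
  have hb2a : (b₂ : ℝ) * a₂ = b₁ * a₁ + Λ := by rw [hΛdef]; ring
  have hζx : x * ζ = l * (r * (a₁ + Λ / b₁) + s * a₂) := by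
    rw [hx, hζeq]
    field_simp
    linear_combination ((l : ℝ) * r) * hb2a
  have hΛb : Λ / b₁ ≤ 1 := by
    rw [div_le_iff₀ hb1R]
    have := le_abs_self Λ
    linarith
  have hin : r * (a₁ + Λ / b₁) + s * a₂ ≤ 2 * T * (3 * A) := by
    have e1 : (r : ℝ) * (a₁ + Λ / b₁) ≤ r * (2 * A) := by
      apply mul_le_mul_of_nonneg_left _ hr0
      linarith
    have e2 : (r : ℝ) * (2 * A) ≤ 2 * T * (2 * A) := by
      apply mul_le_mul_of_nonneg_right hrR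
      linarith
    have e3 : (s : ℝ) * a₂ ≤ 2 * T * A := mul_le_mul hsR ha2 ha20 (by linarith)
    linarith
  have hxζ : x * ζ ≤ 6 * L * T * A := by
    rw [hζx]
    calc (l : ℝ) * (r * (a₁ + Λ / b₁) + s * a₂) ≤ l * (2 * T * (3 * A)) :=
          mul_le_mul_of_nonneg_left hin hl0
      _ ≤ L * (2 * T * (3 * A)) := mul_le_mul_of_nonneg_right hlR (by positivity)
      _ = 6 * L * T * A := by ring
  have hw2 : Real.exp x - 1 ≤ 2 * x := by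
    have h3 := Real.abs_exp_sub_one_le (x := x) (by rw [abs_of_nonneg hx0]; linarith)
    rw [abs_of_nonneg hx0] at h3
    exact (le_abs_self _).trans h3
  have hw0 : 0 ≤ Real.exp x - 1 := by
    have := Real.add_one_le_exp x
    linarith
  have hLTA : 0 ≤ (L : ℝ) * T * A := by positivity
  refine ⟨Real.exp x - 1, hw0, by linarith, ?_, by ring, ?_, ?_⟩
  · calc (Real.exp x - 1) * ζ ≤ (2 * x) * ζ := mul_le_mul_of_nonneg_right hw2 hζ0
      _ = 2 * (x * ζ) := by ring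
      _ ≤ 12 * L * T * A := by linarith
  · have hB1R : (b₁ : ℝ) ≤ B := by exact_mod_cast hB1
    have hB2R : (b₂ : ℝ) ≤ B := by exact_mod_cast hB2
    rw [hζeq]
    have e1 : (r : ℝ) * b₂ ≤ 2 * T * B := mul_le_mul hrR hB2R (Nat.cast_nonneg _) (by linarith)
    have e2 : (s : ℝ) * b₁ ≤ 2 * T * B := mul_le_mul hsR hB1R (Nat.cast_nonneg _) (by linarith)
    linarith
  · have e1 : ((α₁ : ℝ) ^ r * (α₂ : ℝ) ^ s) ^ l = Real.exp (x * ζ) * Real.exp (-(l * r * Λ / b₁)) := by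
      have f1 : (α₁ : ℝ) = Real.exp a₁ := (Real.exp_log hα₁0).symm
      have f2 : (α₂ : ℝ) = Real.exp a₂ := (Real.exp_log hα₂0).symm
      rw [f1, f2, ← Real.exp_nat_mul, ← Real.exp_nat_mul, ← Real.exp_add, ← Real.exp_nat_mul,
        ← Real.exp_add, hζx]
      congr 1
      field_simp
      ring
    have e2 : (1 + (Real.exp x - 1)) ^ (r * b₂ + s * b₁) = Real.exp (x * ζ) := by
      rw [add_sub_cancel, ← Real.exp_nat_mul, mul_comm]
    rw [e1, e2]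
    have e3 : Real.exp (x * ζ) * Real.exp (-(l * r * Λ / b₁)) - Real.exp (x * ζ) =
        Real.exp (x * ζ) * (Real.exp (-(l * r * Λ / b₁)) - 1) := by ring
    rw [e3, abs_mul, abs_of_pos (Real.exp_pos _)]
    have e4 : |-(l * r * Λ / b₁)| ≤ 2 * L * T * |Λ| := by
      rw [abs_neg, abs_div, abs_mul, abs_mul, abs_of_nonneg hl0, abs_of_nonneg hr0,
        abs_of_pos hb1R, div_le_iff₀ hb1R]
      have g1 : (l : ℝ) * r ≤ L * (2 * T) := mul_le_mul hlR hrR hr0 (by linarith)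
      have g2 : (l : ℝ) * r * |Λ| ≤ L * (2 * T) * |Λ| := mul_le_mul_of_nonneg_right g1 (abs_nonneg _)
      have g3 : (0 : ℝ) ≤ L * (2 * T) * |Λ| := by positivity
      have g4 : (1 : ℝ) ≤ b₁ := by linarith
      nlinarith
    have e5 : |-(l * r * Λ / b₁)| ≤ 1 := by
      refine e4.trans ?_
      have : 2 * L * T * |Λ| ≤ |Λ| * (4 * L * T) := by
        have : (0 : ℝ) ≤ L * T * |Λ| := by positivity
        nlinarith
      linarith
    have e6 := Real.abs_exp_sub_one_le e5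
    have e7 : Real.exp (x * ζ) ≤ Real.exp (12 * L * T * A) := by
      apply Real.exp_le_exp.2
      linarith
    calc Real.exp (x * ζ) * |Real.exp (-(l * r * Λ / b₁)) - 1| ≤
        Real.exp (12 * L * T * A) * (2 * (2 * L * T * |Λ|)) := by
          apply mul_le_mul e7 _ (abs_nonneg _) (Real.exp_pos _).le
          linarith
      _ = |Λ| * (4 * L * T) * Real.exp (12 * L * T * A) := by ring

end TL95
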