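import Pool.Agent.LibTL95.Comb
namespace TL95

/-- Expand with `det_expand`. A term `f` with `f i = f i' = some t`, `i ≠ i'`, vanishes
(proportional rows). For the other `f`, put `g_i(none) = ε e^q` and
`g_i(some t) = q^(t-k_i)/(t-k_i)!` for `t ≥ k_i`, `0` for `t < k_i`; by `det_row_bound` the term is
at most `N! ∏_i Z_i g_i(f i)`, and `ρ^{N(N-1)/2} ≤ ∏_i ρ^{(f i).getD N}` (`weight_sum`). Summing
over all `f` (`Finset.prod_univ_sum`/`Fintype.piFinset`) gives
`N! ∏_i Z_i (∑_t g_i(t) ρ^t + ε e^q ρ^N) ≤ N! ∏_i Z_i (ρ^{k_i} e^{ρq} + e^q)`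
(`Real.sum_le_exp_of_nonneg`). -/
theorem det_bound {ι : Type*} [Fintype ι] [DecidableEq ι] (T : ℕ) (q ρ ε : ℝ) (hq : 0 ≤ q)
    (hρ : 1 ≤ ρ) (hε : 0 ≤ ε) (Z : ι → ℝ) (hZ : ∀ i, 0 ≤ Z i) (k : ι → ℕ)
    (A : ι → ℕ → ℝ) (B : ℕ → ι → ℝ) (E : ι → ι → ℝ) (M : Matrix ι ι ℝ)
    (hM : ∀ i j, M i j = ∑ t ∈ Finset.range T, A i t * B t j + E i j)
    (hA0 : ∀ i t, t < k i → A i t = 0)
    (hAB : ∀ i t j, k i ≤ t →
      |A i t * B t j| ≤ Z i * (q ^ (t - k i) / ((t - k i).factorial : ℝ)))
    (hE : ∀ i j, |E i j| ≤ ε * Z i * Real.exp q)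
    (hερ : ε * ρ ^ (Fintype.card ι) ≤ 1) :
    |M.det| * ρ ^ (Fintype.card ι * (Fintype.card ι - 1) / 2) ≤
      (Fintype.card ι).factorial * ∏ i, (2 * Z i * ρ ^ (k i) * Real.exp (ρ * q)) := by
  have hρ0 : 0 < ρ := by linarith
  set N := Fintype.card ι with hN
  -- g i o
  let g : ι → Option (Fin T) → ℝ := fun i o => o.elim (ε * Real.exp q)
    (fun t => if k i ≤ (t : ℕ) then q ^ ((t : ℕ) - k i) / (((t : ℕ) - k i).factorial : ℝ) else 0)
  let w : Option (Fin T) → ℕ := fun o => (o.map (fun t : Fin T => (t : ℕ))).getD N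
  have hg0 : ∀ i o, 0 ≤ g i o := by
    intro i o
    cases o with
    | none => exact mul_nonneg hε (Real.exp_pos _).le
    | some t =>
      change 0 ≤ if k i ≤ (t : ℕ) then _ else _
      split_ifs
      · positivity
      · exact le_refl _
  rw [det_expand T (fun i t j => A i t * B t j) E M hM]
  -- each term
  have hterm : ∀ f : ι → Option (Fin T),
      |(Matrix.of fun i j : ι => (f i).elim (E i j) (fun t => A i (t : ℕ) * B t j)).det| *
        ρ ^ (N * (N - 1) / 2) ≤ (N.factorial : ℝ) * ∏ i, (Z i * (g i (f i) * ρ ^ (w (f i)))) := by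
    intro f
    by_cases hinj : ∀ i j t, f i = some t → f j = some t → i = j
    · have h1 := det_row_bound (Matrix.of fun i j : ι =>
          (f i).elim (E i j) (fun t => A i (t : ℕ) * B t j)) (fun i => Z i * g i (f i)) (by
        intro i j
        rw [Matrix.of_apply]
        cases hfi : f i with
        | none =>
          change |E i j| ≤ Z i * (ε * Real.exp q)
          have := hE i j
          linarith
        | some t =>
          change |A i t * B t j| ≤ Z i * (if k i ≤ (t : ℕ) then _ else _)
          split_ifs with hk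
          · exact hAB i t j hk
          · rw [hA0 i t (by omega)]
            simp)
      have h2 : ρ ^ (N * (N - 1) / 2) ≤ ∏ i, ρ ^ (w (f i)) := by
        rw [Finset.prod_pow_eq_pow_sum]
        apply pow_le_pow_right₀ hρ
        exact weight_sum (fun i => (f i).map (fun t : Fin T => (t : ℕ))) (by
          intro i j t hi hj
          rw [Option.map_eq_some_iff] at hi hj
          obtain ⟨a, ha, ha'⟩ := hi
          obtain ⟨b, hb, hb'⟩ := hj
          have hab : a = b := Fin.ext (ha'.trans hb'.symm)
          subst hab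
          exact hinj i j a ha hb)
      have h3 : ∏ i, (Z i * (g i (f i) * ρ ^ (w (f i)))) =
          (∏ i, (Z i * g i (f i))) * ∏ i, ρ ^ (w (f i)) := by
        rw [← Finset.prod_mul_distrib]
        exact Finset.prod_congr rfl (fun i _ => by ring)
      rw [h3, ← mul_assoc]
      exact mul_le_mul h1 h2 (by positivity) (mul_nonneg (by positivity)
        (Finset.prod_nonneg (fun i _ => mul_nonneg (hZ i) (hg0 i _))))
    · push Not at hinj
      obtain ⟨i, j, t, hi, hj, hij⟩ := hinj
      have h1 : (Matrix.of fun i j : ι => (f i).elim (E i j) (fun t => A i (t : ℕ) * B t j)) =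
          Matrix.of fun i j : ι => ((f i).elim 1 (fun t => A i (t : ℕ))) *
            ((f i).elim (E i j) (fun t => B t j)) := by
        ext i j
        rw [Matrix.of_apply, Matrix.of_apply]
        cases f i
        · simp
        · rfl
      have h5 : (Matrix.of fun i j : ι => ((f i).elim (E i j) (fun t => B t j))).det = 0 := by
        apply Matrix.det_zero_of_row_eq hij
        funext l
        rw [Matrix.of_apply, Matrix.of_apply, hi, hj]
        rfl
      have h6 : (Matrix.of fun i j : ι =>
          (f i).elim (E i j) (fun t => A i (t : ℕ) * B t j)).det = 0 := by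
        rw [h1, Matrix.det_mul_column]
        change _ * (Matrix.of fun i j : ι => ((f i).elim (E i j) (fun t => B t j))).det = 0
        rw [h5, mul_zero]
      rw [h6, abs_zero, zero_mul]
      exact mul_nonneg (by positivity) (Finset.prod_nonneg (fun i _ =>
        mul_nonneg (hZ i) (mul_nonneg (hg0 i _) (by positivity))))
  have hsum : |∑ f : ι → Option (Fin T),
      (Matrix.of fun i j : ι => (f i).elim (E i j) (fun t => A i (t : ℕ) * B t j)).det| *
        ρ ^ (N * (N - 1) / 2) ≤
      (N.factorial : ℝ) * ∏ i, (Z i * ∑ o : Option (Fin T), (g i o * ρ ^ (w o))) := by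
    calc _ ≤ (∑ f : ι → Option (Fin T),
        |(Matrix.of fun i j : ι => (f i).elim (E i j) (fun t => A i (t : ℕ) * B t j)).det|) *
          ρ ^ (N * (N - 1) / 2) := by
          apply mul_le_mul_of_nonneg_right (Finset.abs_sum_le_sum_abs _ _) (by positivity)
      _ = ∑ f : ι → Option (Fin T),
        |(Matrix.of fun i j : ι => (f i).elim (E i j) (fun t => A i (t : ℕ) * B t j)).det| *
          ρ ^ (N * (N - 1) / 2) := by rw [Finset.sum_mul]
      _ ≤ ∑ f : ι → Option (Fin T), (N.factorial : ℝ) * ∏ i, (Z i * (g i (f i) * ρ ^ (w (f i)))) :=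
          Finset.sum_le_sum (fun f _ => hterm f)
      _ = (N.factorial : ℝ) * ∏ i, ∑ o : Option (Fin T), (Z i * (g i o * ρ ^ (w o))) := by
          rw [← Finset.mul_sum]
          congr 1
          rw [Finset.prod_univ_sum]
          simp
      _ = _ := by
          congr 1
          exact Finset.prod_congr rfl (fun i _ => by rw [Finset.mul_sum])
  refine hsum.trans ?_
  apply mul_le_mul_of_nonneg_left _ (by positivity)
  apply Finset.prod_le_prod
  · intro i _
    exact mul_nonneg (hZ i) (Finset.sum_nonneg (fun o _ => mul_nonneg (hg0 i o) (by positivity)))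
  · intro i _
    have h1 : ∑ o : Option (Fin T), (g i o * ρ ^ (w o)) =
        ε * Real.exp q * ρ ^ N + ∑ t : Fin T, g i (some t) * ρ ^ (t : ℕ) := by
      rw [Fintype.sum_option]
      rfl
    have h2 : ∑ t : Fin T, g i (some t) * ρ ^ (t : ℕ) ≤ ρ ^ (k i) * Real.exp (ρ * q) := by
      have e1 : ∑ t : Fin T, g i (some t) * ρ ^ (t : ℕ) = ∑ t ∈ Finset.range T,
          (if k i ≤ t then q ^ (t - k i) / ((t - k i).factorial : ℝ) else 0) * ρ ^ t := by
        rw [Finset.sum_range]
        rfl
      have e2 : ∑ t ∈ Finset.range T,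
          (if k i ≤ t then q ^ (t - k i) / ((t - k i).factorial : ℝ) else 0) * ρ ^ t ≤
          ∑ t ∈ Finset.range (k i + T),
          (if k i ≤ t then q ^ (t - k i) / ((t - k i).factorial : ℝ) else 0) * ρ ^ t := by
        apply Finset.sum_le_sum_of_subset_of_nonneg
        · exact Finset.range_subset_range.2 (by omega)
        · intro t _ _
          split_ifs
          · positivity
          · simp
      have e3 : ∑ t ∈ Finset.range (k i + T),
          (if k i ≤ t then q ^ (t - k i) / ((t - k i).factorial : ℝ) else 0) * ρ ^ t =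
          ρ ^ (k i) * ∑ t ∈ Finset.range T, (ρ * q) ^ t / (t.factorial : ℝ) := by
        rw [Finset.sum_range_add, Finset.mul_sum]
        have e4 : ∑ t ∈ Finset.range (k i),
          (if k i ≤ t then q ^ (t - k i) / ((t - k i).factorial : ℝ) else 0) * ρ ^ t = 0 := by
          apply Finset.sum_eq_zero
          intro t ht
          rw [Finset.mem_range] at ht
          rw [if_neg (by omega), zero_mul]
        rw [e4, zero_add]
        apply Finset.sum_congr rfl
        intro t _
        rw [if_pos (by omega), Nat.add_sub_cancel_left, mul_pow, pow_add]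
        ring
      rw [e1]
      refine e2.trans ?_
      rw [e3]
      apply mul_le_mul_of_nonneg_left _ (by positivity)
      exact Real.sum_le_exp_of_nonneg (by positivity) T
    have h3 : ε * Real.exp q * ρ ^ N ≤ ρ ^ (k i) * Real.exp (ρ * q) := by
      have e1 : Real.exp q ≤ Real.exp (ρ * q) := by
        apply Real.exp_le_exp.2
        nlinarith
      have e2 : 1 ≤ ρ ^ (k i) := one_le_pow₀ hρ
      have e3 : 0 < Real.exp q := Real.exp_pos q
      calc ε * Real.exp q * ρ ^ N = (ε * ρ ^ N) * Real.exp q := by ring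
        _ ≤ 1 * Real.exp q := by gcongr
        _ ≤ ρ ^ (k i) * Real.exp (ρ * q) := by gcongr
    rw [h1]
    calc Z i * (ε * Real.exp q * ρ ^ N + ∑ t : Fin T, g i (some t) * ρ ^ (t : ℕ)) ≤
        Z i * (ρ ^ (k i) * Real.exp (ρ * q) + ρ ^ (k i) * Real.exp (ρ * q)) := by
          apply mul_le_mul_of_nonneg_left _ (hZ i)
          linarith
      _ = 2 * Z i * ρ ^ (k i) * Real.exp (ρ * q) := by ring

end TL95
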