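import Pool.Agent.LibTL95.Newton
import Pool.Agent.LibTL95.DetBound
import Pool.Agent.LibTL95.Full
import Pool.Agent.LibTL95.ArchPt
namespace TL95

private theorem sum_fst' (K L : ℕ) : ∑ i : Fin K × Fin L, (i.1 : ℕ) = L * (K * (K - 1) / 2) := by
  rw [Fintype.sum_prod_type_right]
  simp only [Finset.sum_const, Finset.card_univ, Fintype.card_fin, smul_eq_mul]
  rw [← Finset.sum_range (fun k => k), Finset.sum_range_id]

/-- `choose t k * ζ^t / t! = ζ^k / k! * ζ^(t-k) / (t-k)!` as a bound. -/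
private theorem ab_bound {w ζ q V : ℝ} (hw0 : 0 ≤ w) (hw1 : w ≤ 1) (hζ0 : 0 ≤ ζ)
    (hq : w * ζ ≤ q) (hV : 2 * ζ ≤ V) {t k : ℕ} (hkt : k ≤ t) {z : ℕ} (hz : (z : ℝ) = ζ) :
    |(t.choose k : ℝ) * w ^ (t - k) * (1 + w) ^ k * (z.choose t : ℝ)| ≤
      V ^ k * (q ^ (t - k) / ((t - k).factorial : ℝ)) := by
  have h1 : (z.choose t : ℝ) ≤ ζ ^ t / (t.factorial : ℝ) := by
    rw [← hz]
    exact Nat.choose_le_pow_div t z
  have h2 : 0 ≤ (t.choose k : ℝ) * w ^ (t - k) * (1 + w) ^ k := by positivity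
  rw [abs_of_nonneg (mul_nonneg h2 (Nat.cast_nonneg _))]
  obtain ⟨d, rfl⟩ := Nat.exists_eq_add_of_le hkt
  rw [Nat.add_sub_cancel_left]
  have h3 : ((k + d).choose k : ℝ) * (k.factorial : ℝ) * (d.factorial : ℝ) =
      ((k + d).factorial : ℝ) := by
    have := Nat.choose_mul_factorial_mul_factorial (Nat.le_add_right k d)
    rw [Nat.add_sub_cancel_left] at this
    exact_mod_cast this
  have hk0 : (0 : ℝ) < (k.factorial : ℝ) := by exact_mod_cast k.factorial_pos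
  have hd0 : (0 : ℝ) < (d.factorial : ℝ) := by exact_mod_cast d.factorial_pos
  have hkd0 : (0 : ℝ) < ((k + d).factorial : ℝ) := by exact_mod_cast (k + d).factorial_pos
  rw [Nat.add_sub_cancel_left] at h2
  calc ((k + d).choose k : ℝ) * w ^ d * (1 + w) ^ k * (z.choose (k + d) : ℝ) ≤
      ((k + d).choose k : ℝ) * w ^ d * (1 + w) ^ k * (ζ ^ (k + d) / ((k + d).factorial : ℝ)) :=
        mul_le_mul_of_nonneg_left h1 h2
    _ = ((1 + w) * ζ) ^ k / (k.factorial : ℝ) * ((w * ζ) ^ d / (d.factorial : ℝ)) := by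
        rw [← h3]
        have hc : (((k + d).choose k : ℕ) : ℝ) ≠ 0 := by
          have : 0 < (k + d).choose k := Nat.choose_pos (Nat.le_add_right k d)
          exact_mod_cast this.ne'
        rw [mul_pow, mul_pow, pow_add]
        field_simp
    _ ≤ V ^ k * (q ^ d / (d.factorial : ℝ)) := by
        have e1 : ((1 + w) * ζ) ^ k / (k.factorial : ℝ) ≤ V ^ k := by
          have f1 : (1 + w) * ζ ≤ V := by nlinarith
          have f2 : ((1 + w) * ζ) ^ k ≤ V ^ k := pow_le_pow_left₀ (by positivity) f1 k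
          have f3 : (1 : ℝ) ≤ (k.factorial : ℝ) := by exact_mod_cast k.factorial_pos
          exact (div_le_self (by positivity) f3).trans f2
        have e2 : (w * ζ) ^ d / (d.factorial : ℝ) ≤ q ^ d / (d.factorial : ℝ) := by
          apply div_le_div_of_nonneg_right _ hd0.le
          exact pow_le_pow_left₀ (by positivity) hq d
        have hV0 : 0 ≤ V := by nlinarith
        exact mul_le_mul e1 e2 (by positivity) (by positivity)

/-- The archimedean estimate of the interpolation determinant `D` of `full_minor`: `1 ≤ |D|` and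
`det_bound` with `ρ = 2`, `q = 12 L T A`, `Z_{(k,l)} = (8TB)^k`, `ε = 4 L T |Λ|`,
`A = choose t k * w_l^(t-k) * (1+w_l)^k`, `B = choose ζ_j t ≤ ζ_j^t / t!` (`Nat.choose_le_pow_div`),
using `choose t k * ζ^t / t! = ζ^k / k! * ζ^(t-k) / (t-k)!`. -/
theorem arch_det {K L ρ T A B α₁ α₂ b₁ b₂ : ℕ} (hα₁ : 2 ≤ α₁) (hα₂ : 2 ≤ α₂)
    (hA1 : α₁ ≤ 2 ^ A) (hA2 : α₂ ≤ 2 ^ A) (hA : 1 ≤ A) (hB1 : b₁ ≤ B) (hB2 : b₂ ≤ B)
    (hb : T ≤ b₁) (hLT : 4 * L * A ≤ T) (hL1 : 1 ≤ L)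
    (hω : ∀ r s r' s' : ℕ, α₁ ^ r * α₂ ^ s = α₁ ^ r' * α₂ ^ s' → r = r' ∧ s = s')
    (hL : L ≤ ρ ^ 2) (hρT : ρ ≤ T)
    (hζ : ∀ r s r' s' : ℕ, r < T → s < T → r' < T → s' < T →
      r * b₂ + s * b₁ = r' * b₂ + s' * b₁ → r = r' ∧ s = s')
    (hT : (K - 1) * L < T ^ 2)
    (hΛ : |(b₂ : ℝ) * Real.log α₂ - (b₁ : ℝ) * Real.log α₁| * (4 * L * T) * 2 ^ (K * L) ≤ 1) :
    (2 : ℝ) ^ (K * L * (K * L - 1) / 2) ≤
      (K * L).factorial * 2 ^ (K * L) * (16 * T * B) ^ (L * (K * (K - 1) / 2)) *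
        Real.exp (24 * L * T * A * (K * L)) := by
  classical
  obtain ⟨P, hP, hdet⟩ := full_minor (K := K) (L := L) (ρ := ρ) (T := T) (α₁ := α₁) (α₂ := α₂)
    (b₁ := b₁) (b₂ := b₂) (by omega) (by omega) hω hL hρT hζ hT
  have hcard : Fintype.card (Fin K × Fin L) = K * L := by simp
  set Λ : ℝ := |(b₂ : ℝ) * Real.log α₂ - (b₁ : ℝ) * Real.log α₁| with hΛdef
  have hΛ0 : 0 ≤ Λ := abs_nonneg _
  have hε0 : 0 ≤ Λ * (4 * L * T) := by positivity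
  have hΛ1 : Λ * (4 * L * T) ≤ 1 := by
    have h1 : (1 : ℝ) ≤ 2 ^ (K * L) := one_le_pow₀ (by norm_num)
    nlinarith
  -- the point estimates; `w` depends only on `l`
  have hw : ∀ l : ℕ, l < L → ∀ r s : ℕ, r < 2 * T → s < 2 * T →
      0 ≤ Real.exp (l * Real.log α₂ / b₁) - 1 ∧ Real.exp (l * Real.log α₂ / b₁) - 1 ≤ 1 ∧
      (Real.exp (l * Real.log α₂ / b₁) - 1) * ((r * b₂ + s * b₁ : ℕ) : ℝ) ≤ 12 * L * T * A ∧
      ((r * b₂ + s * b₁ : ℕ) : ℝ) ≤ 4 * T * B ∧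
      |((α₁ : ℝ) ^ r * (α₂ : ℝ) ^ s) ^ l -
        (1 + (Real.exp (l * Real.log α₂ / b₁) - 1)) ^ (r * b₂ + s * b₁)| ≤
        Λ * (4 * L * T) * Real.exp (12 * L * T * A) := by
    intro l hl r s hr hs
    obtain ⟨w, h1, h2, h3, h4, h5, h6⟩ := arch_pt hα₁ hα₂ hA1 hA2 hA hB1 hB2 hb hLT hL1 hl hr hs hΛ1
    have h7 : w = Real.exp (l * Real.log α₂ / b₁) - 1 := by linarith
    rw [← h7]
    exact ⟨h1, h2, h3, h5, h6⟩
  set MR : Matrix (Fin K × Fin L) (Fin K × Fin L) ℝ := Matrix.of fun i j =>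
        (Nat.choose ((P j).1 * b₂ + (P j).2 * b₁) i.1 : ℝ) *
          ((α₁ : ℝ) ^ (P j).1 * (α₂ : ℝ) ^ (P j).2) ^ (i.2 : ℕ) with hMR
  have hdet1 : 1 ≤ |MR.det| := by
    have e0 := (Int.castRingHom ℝ).map_det (Matrix.of fun i j : Fin K × Fin L =>
        (Nat.choose ((P j).1 * b₂ + (P j).2 * b₁) i.1 : ℤ) *
          ((α₁ : ℤ) ^ (P j).1 * (α₂ : ℤ) ^ (P j).2) ^ (i.2 : ℕ))
    have e1 : (Int.castRingHom ℝ).mapMatrix (Matrix.of fun i j : Fin K × Fin L =>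
        (Nat.choose ((P j).1 * b₂ + (P j).2 * b₁) i.1 : ℤ) *
          ((α₁ : ℤ) ^ (P j).1 * (α₂ : ℤ) ^ (P j).2) ^ (i.2 : ℕ)) = MR := by
      ext i j
      simp [hMR]
    rw [e1] at e0
    rw [← e0, eq_intCast, ← Int.cast_abs]
    exact_mod_cast Int.one_le_abs hdet
  have key := det_bound (ι := Fin K × Fin L) (4 * T * B + 1) (12 * L * T * A) 2
    (Λ * (4 * L * T)) (by positivity) (by norm_num) hε0
    (fun i => (8 * T * B : ℝ) ^ (i.1 : ℕ)) (fun i => by positivity) (fun i => (i.1 : ℕ))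
    (fun i t => (Nat.choose t i.1 : ℝ) * (Real.exp ((i.2 : ℕ) * Real.log α₂ / b₁) - 1) ^ (t - (i.1 : ℕ)) *
        (1 + (Real.exp ((i.2 : ℕ) * Real.log α₂ / b₁) - 1)) ^ (i.1 : ℕ))
    (fun t j => (Nat.choose ((P j).1 * b₂ + (P j).2 * b₁) t : ℝ))
    (fun i j => MR i j - (Nat.choose ((P j).1 * b₂ + (P j).2 * b₁) i.1 : ℝ) *
        (1 + (Real.exp ((i.2 : ℕ) * Real.log α₂ / b₁) - 1)) ^ ((P j).1 * b₂ + (P j).2 * b₁)) MR
    ?_ ?_ ?_ ?_ ?_
  · rw [hcard] at key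
    have h1 : (2 : ℝ) ^ (K * L * (K * L - 1) / 2) ≤ |MR.det| * 2 ^ (K * L * (K * L - 1) / 2) := by
      have : (0 : ℝ) < 2 ^ (K * L * (K * L - 1) / 2) := by positivity
      nlinarith
    refine h1.trans (key.trans (le_of_eq ?_))
    have h2 : ∀ i : Fin K × Fin L, 2 * (8 * T * B : ℝ) ^ (i.1 : ℕ) * 2 ^ (i.1 : ℕ) *
        Real.exp (2 * (12 * L * T * A)) =
        (2 * Real.exp (2 * (12 * L * T * A))) * (16 * T * B : ℝ) ^ (i.1 : ℕ) := by
      intro i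
      have : (16 * T * B : ℝ) = (8 * T * B) * 2 := by ring
      rw [this, mul_pow (8 * T * B : ℝ) 2]
      ring
    rw [Finset.prod_congr rfl (fun i _ => h2 i), Finset.prod_mul_distrib, Finset.prod_const,
      Finset.card_univ, hcard, Finset.prod_pow_eq_pow_sum, sum_fst', mul_pow, ← Real.exp_nat_mul]
    have h3 : ((K * L : ℕ) : ℝ) * (2 * (12 * L * T * A)) = 24 * L * T * A * (K * L) := by
      push_cast; ring
    rw [h3]
    ring
  · intro i j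
    have hle : (P j).1 * b₂ + (P j).2 * b₁ < 4 * T * B + 1 := by
      have := (hw 0 (by omega) _ _ (hP j).1 (hP j).2).2.2.2.1
      have h4 : (P j).1 * b₂ + (P j).2 * b₁ ≤ 4 * T * B := by exact_mod_cast this
      omega
    rw [← newton_identity (Real.exp ((i.2 : ℕ) * Real.log α₂ / b₁) - 1)
      ((P j).1 * b₂ + (P j).2 * b₁) i.1 (4 * T * B + 1) hle]
    ring
  · intro i t hti
    rw [Nat.choose_eq_zero_of_lt hti]
    simp
  · intro i t j hit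
    obtain ⟨e1, e2, e3, e4, e5⟩ := hw i.2 i.2.2 _ _ (hP j).1 (hP j).2
    exact ab_bound e1 e2 (Nat.cast_nonneg _) e3 (by linarith) hit rfl
  · intro i j
    obtain ⟨e1, e2, e3, e4, e5⟩ := hw i.2 i.2.2 _ _ (hP j).1 (hP j).2
    have f1 : MR i j - (Nat.choose ((P j).1 * b₂ + (P j).2 * b₁) i.1 : ℝ) *
        (1 + (Real.exp ((i.2 : ℕ) * Real.log α₂ / b₁) - 1)) ^ ((P j).1 * b₂ + (P j).2 * b₁) =
        (Nat.choose ((P j).1 * b₂ + (P j).2 * b₁) i.1 : ℝ) *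
        (((α₁ : ℝ) ^ (P j).1 * (α₂ : ℝ) ^ (P j).2) ^ (i.2 : ℕ) -
        (1 + (Real.exp ((i.2 : ℕ) * Real.log α₂ / b₁) - 1)) ^ ((P j).1 * b₂ + (P j).2 * b₁)) := by
      rw [hMR, Matrix.of_apply]
      ring
    rw [f1, abs_mul, abs_of_nonneg (Nat.cast_nonneg _)]
    have f2 : (Nat.choose ((P j).1 * b₂ + (P j).2 * b₁) i.1 : ℝ) ≤ (8 * T * B : ℝ) ^ (i.1 : ℕ) := by
      have g1 : (((((P j).1 * b₂ + (P j).2 * b₁).choose i.1 : ℕ)) : ℝ) ≤
          ((((P j).1 * b₂ + (P j).2 * b₁) ^ (i.1 : ℕ) : ℕ) : ℝ) :=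
        Nat.cast_le.2 (Nat.choose_le_pow _ _)
      refine g1.trans ?_
      rw [Nat.cast_pow]
      apply pow_le_pow_left₀ (Nat.cast_nonneg _)
      have : (0 : ℝ) ≤ T * B := by positivity
      linarith
    calc (Nat.choose ((P j).1 * b₂ + (P j).2 * b₁) i.1 : ℝ) * _ ≤
        (8 * T * B : ℝ) ^ (i.1 : ℕ) * (Λ * (4 * L * T) * Real.exp (12 * L * T * A)) :=
          mul_le_mul f2 e5 (abs_nonneg _) (by positivity)
      _ = Λ * (4 * L * T) * (8 * T * B : ℝ) ^ (i.1 : ℕ) * Real.exp (12 * L * T * A) := by ring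
  · rw [hcard]
    exact hΛ

end TL95
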