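import Mathlib
namespace TL95

private theorem nb_tri (n : ℕ) : 2 * (n * (n - 1) / 2) + n = n ^ 2 := by
  have h : 2 * (n * (n - 1) / 2) = n * (n - 1) := Nat.mul_div_cancel' (Nat.even_mul_pred_self n).two_dvd
  rw [h]
  cases n with
  | zero => rfl
  | succ m => simp only [Nat.add_sub_cancel]; ring

private theorem nb_exp (m : ℕ) : Real.exp (24 * (m : ℝ)) ≤ 2 ^ (36 * m) := by
  have h1 : Real.exp 1 ^ 2 ≤ 2 ^ 3 := by
    have h := Real.exp_one_lt_d9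
    have h0 := Real.exp_pos 1
    nlinarith
  have h2 : Real.exp (24 * (m : ℝ)) = (Real.exp 1 ^ 2) ^ (12 * m) := by
    rw [← pow_mul, ← Real.exp_nat_mul]
    congr 1
    push_cast
    ring
  rw [h2]
  calc (Real.exp 1 ^ 2) ^ (12 * m) ≤ (2 ^ 3) ^ (12 * m) := by gcongr
    _ = 2 ^ (36 * m) := by rw [← pow_mul]; congr 1; ring

/-- With `N = κ²ρ² = 2^32 l^4 A^2 ≤ 2^(32+6l)`: in base 2 the exponent on the left is at most
`(32+6l) N + N + (20+4l) N²/(2ρ²) + 24 * 1.4427 * N²/256` since `16κρB = 2^20 l² A B ≤ 2^(20+4l)`,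
`ρ²κ⁴ = N²/ρ²`, `ρ² (κρ) A = N/256` and `e ≤ 2^1.4427` (use `exp x ≤ 2^(3x/2)`, or
`Real.exp_one_lt_d9`); the exponent on the right is `N(N-1)/2`. -/
theorem num_arch {l A B ρ κ : ℕ} (hl : 1 ≤ l) (hA : 1 ≤ A) (hAl : A ≤ 2 ^ l) (hBl : B ≤ 2 ^ l)
    (hρ : ρ = 16 * l) (hκ : κ = 256 * ρ * A) :
    ((κ ^ 2 * ρ ^ 2).factorial : ℝ) * 2 ^ (κ ^ 2 * ρ ^ 2) *
        (16 * ((κ * ρ : ℕ) : ℝ) * B) ^ (ρ ^ 2 * (κ ^ 2 * (κ ^ 2 - 1) / 2)) *
        Real.exp (24 * ((ρ ^ 2 : ℕ) : ℝ) * ((κ * ρ : ℕ) : ℝ) * A * ((κ ^ 2 * ρ ^ 2 : ℕ) : ℝ)) <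
      (2 : ℝ) ^ (κ ^ 2 * ρ ^ 2 * (κ ^ 2 * ρ ^ 2 - 1) / 2) := by
  have hll : l ≤ 2 ^ l := (Nat.lt_pow_self (by norm_num)).le
  have h256 : 256 * (κ * ρ * A) = κ ^ 2 := by rw [hκ]; ring
  have hkr : κ ^ 2 = 65536 * ρ ^ 2 * A ^ 2 := by rw [hκ]; ring
  have hr : ρ ^ 2 = 256 * l ^ 2 := by rw [hρ]; ring
  have hN : κ ^ 2 * ρ ^ 2 ≤ 2 ^ (32 + 6 * l) := by
    rw [hkr, hr]
    calc 65536 * (256 * l ^ 2) * A ^ 2 * (256 * l ^ 2) = 2 ^ 32 * (l ^ 4 * A ^ 2) := by ring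
      _ ≤ 2 ^ 32 * ((2 ^ l) ^ 4 * (2 ^ l) ^ 2) := by gcongr
      _ = 2 ^ (32 + 6 * l) := by rw [pow_add]; ring
  have h4 : 16 * (κ * ρ) * B ≤ 2 ^ (20 + 4 * l) := by
    rw [hκ, hρ]
    calc 16 * (256 * (16 * l) * A * (16 * l)) * B = 2 ^ 20 * (l ^ 2 * A * B) := by ring
      _ ≤ 2 ^ 20 * ((2 ^ l) ^ 2 * 2 ^ l * 2 ^ l) := by gcongr
      _ = 2 ^ (20 + 4 * l) := by rw [pow_add]; ring
  have hA2 : 1 ≤ A ^ 2 := Nat.one_le_pow _ _ hA
  have hl2 : 1 ≤ l ^ 2 := Nat.one_le_pow _ _ hl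
  -- rewrite the exponential
  have hexp : Real.exp (24 * ((ρ ^ 2 : ℕ) : ℝ) * ((κ * ρ : ℕ) : ℝ) * A *
      ((κ ^ 2 * ρ ^ 2 : ℕ) : ℝ)) ≤ 2 ^ (36 * (ρ ^ 2 * (κ * ρ * A) * (κ ^ 2 * ρ ^ 2))) := by
    have := nb_exp (ρ ^ 2 * (κ * ρ * A) * (κ ^ 2 * ρ ^ 2))
    refine le_trans (le_of_eq ?_) this
    congr 1
    push_cast
    ring
  have hexp0 : 0 ≤ Real.exp (24 * ((ρ ^ 2 : ℕ) : ℝ) * ((κ * ρ : ℕ) : ℝ) * A *
      ((κ ^ 2 * ρ ^ 2 : ℕ) : ℝ)) := (Real.exp_pos _).le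
  have hd : (16 * ((κ * ρ : ℕ) : ℝ) * B) = ((16 * (κ * ρ) * B : ℕ) : ℝ) := by push_cast; ring
  rw [hd]
  generalize κ * ρ * A = c at h256 hexp ⊢
  generalize 16 * (κ * ρ) * B = d at h4 ⊢
  generalize Real.exp (24 * ((ρ ^ 2 : ℕ) : ℝ) * ((κ * ρ : ℕ) : ℝ) * A *
      ((κ ^ 2 * ρ ^ 2 : ℕ) : ℝ)) = e at hexp hexp0 ⊢
  generalize hk : κ ^ 2 = k at *
  generalize hrr : ρ ^ 2 = r at *
  have tN := nb_tri (k * r)
  have tk := nb_tri k
  generalize hTN : k * r * (k * r - 1) / 2 = TN at *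
  generalize hTk : k * (k - 1) / 2 = Tk at *
  have hr256 : 256 * l ≤ r := by rw [hr]; nlinarith
  have hkbig : 16777216 * l ≤ k := by
    rw [hkr, hr]
    nlinarith [Nat.mul_le_mul hl2 hA2, Nat.mul_le_mul (show l ≤ l ^ 2 by nlinarith) hA2]
  have hfac : ((k * r).factorial : ℝ) ≤ 2 ^ ((32 + 6 * l) * (k * r)) := by
    have : (k * r).factorial ≤ 2 ^ ((32 + 6 * l) * (k * r)) := by
      calc (k * r).factorial ≤ (k * r) ^ (k * r) := Nat.factorial_le_pow _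
        _ ≤ (2 ^ (32 + 6 * l)) ^ (k * r) := by gcongr
        _ = 2 ^ ((32 + 6 * l) * (k * r)) := by rw [← pow_mul]
    exact_mod_cast this
  have hmid : ((d : ℕ) : ℝ) ^ (r * Tk) ≤ 2 ^ ((20 + 4 * l) * (r * Tk)) := by
    have : d ^ (r * Tk) ≤ 2 ^ ((20 + 4 * l) * (r * Tk)) := by
      calc d ^ (r * Tk) ≤ (2 ^ (20 + 4 * l)) ^ (r * Tk) := by gcongr
        _ = 2 ^ ((20 + 4 * l) * (r * Tk)) := by rw [← pow_mul]
    exact_mod_cast this
  calc ((k * r).factorial : ℝ) * 2 ^ (k * r) * (d : ℝ) ^ (r * Tk) * e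
      ≤ 2 ^ ((32 + 6 * l) * (k * r)) * 2 ^ (k * r) * 2 ^ ((20 + 4 * l) * (r * Tk)) *
          2 ^ (36 * (r * c * (k * r))) := by gcongr
    _ = 2 ^ ((32 + 6 * l) * (k * r) + k * r + (20 + 4 * l) * (r * Tk) +
          36 * (r * c * (k * r))) := by
        rw [← pow_add, ← pow_add, ← pow_add]
    _ < 2 ^ TN := by
        apply pow_lt_pow_right₀ (by norm_num)
        -- everything against `N² = k² r²`
        have hrl : 256 * l ^ 2 * k ^ 2 * r = k ^ 2 * r ^ 2 := by rw [hr]; ring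
        have e1 : 256 * (36 * (r * c * (k * r))) = 36 * (k ^ 2 * r ^ 2) := by
          calc 256 * (36 * (r * c * (k * r))) = 36 * ((256 * c) * r * (k * r)) := by ring
            _ = 36 * (k ^ 2 * r ^ 2) := by rw [h256]; ring
        have e3 : 2 * (r * Tk) ≤ r * k ^ 2 := by
          calc 2 * (r * Tk) ≤ r * (2 * Tk + k) := by nlinarith
            _ = r * k ^ 2 := by rw [tk]
        have e5 : 64 * ((20 + 4 * l) * (r * Tk)) ≤ 3 * (k ^ 2 * r ^ 2) := by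
          calc 64 * ((20 + 4 * l) * (r * Tk)) ≤ 64 * ((24 * l) * (r * Tk)) := by
                apply Nat.mul_le_mul_left; apply Nat.mul_le_mul_right; omega
            _ = 768 * l * (2 * (r * Tk)) := by ring
            _ ≤ 768 * l ^ 2 * (r * k ^ 2) := by
                apply Nat.mul_le_mul _ e3
                nlinarith
            _ = 3 * (256 * l ^ 2 * k ^ 2 * r) := by ring
            _ = 3 * (k ^ 2 * r ^ 2) := by rw [hrl]
        have e4 : 64 * ((34 + 6 * l) * (k * r)) ≤ k ^ 2 * r ^ 2 := by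
          have h1 : 64 * (34 + 6 * l) ≤ k * r := by
            have : 64 * (34 + 6 * l) ≤ 16777216 * l * (256 * l) := by nlinarith
            exact this.trans (Nat.mul_le_mul hkbig hr256)
          calc 64 * ((34 + 6 * l) * (k * r)) = (64 * (34 + 6 * l)) * (k * r) := by ring
            _ ≤ (k * r) * (k * r) := by gcongr
            _ = k ^ 2 * r ^ 2 := by ring
        have hpos : 0 < k ^ 2 * r ^ 2 := by
          have : 0 < k := by omega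
          have : 0 < r := by omega
          positivity
        have e6 : (k * r) ^ 2 = k ^ 2 * r ^ 2 := by ring
        rw [e6] at tN
        have e7 : (34 + 6 * l) * (k * r) = (32 + 6 * l) * (k * r) + 2 * (k * r) := by ring
        rw [e7] at e4
        omega

end TL95
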