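import Pool.Agent.LibTL95.Inj
import Pool.Agent.LibTL95.NumArch
import Pool.Agent.LibTL95.ArchDet
namespace TL95

private theorem ArchCop_log {u v U : ℝ} (hv : 0 < v) (huv : v + 1 ≤ u) (hU : u ≤ U) :
    1 / U ≤ Real.log u - Real.log v := by
  have hu : 0 < u := by linarith
  have hU0 : 0 < U := by linarith
  have h1 := Real.log_le_sub_one_of_pos (div_pos hv hu)
  rw [Real.log_div hv.ne' hu.ne'] at h1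
  have h2 : 1 / U ≤ 1 - v / u := by
    have h3 : 1 / U ≤ 1 / u := one_div_le_one_div_of_le hu hU
    have h4 : 1 - v / u = (u - v) / u := by
      field_simp
    rw [h4]
    refine h3.trans ?_
    gcongr
    linarith
  linarith

/-- `|log (u / v)| ≥ |u - v| / max u v` for positive integers, so a nonzero
`|b₂ log α₂ - b₁ log α₁|` is at least `2^(-A max(b₁, b₂))`. -/
theorem arch_small {A M α₁ α₂ b₁ b₂ : ℕ} (hb1 : 0 < b₁) (h1' : 2 ≤ α₁) (h2' : 2 ≤ α₂)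
    (hA1 : α₁ ≤ 2 ^ A) (hA2 : α₂ ≤ 2 ^ A) (hM1 : b₁ ≤ M) (hM2 : b₂ ≤ M)
    (hMI : ∀ i j : ℕ, α₁ ^ i = α₂ ^ j → i = 0 ∧ j = 0) :
    (1 / 2 : ℝ) ^ (A * M) ≤ |(b₂ : ℝ) * Real.log α₂ - (b₁ : ℝ) * Real.log α₁| := by
  have e2 : (b₂ : ℝ) * Real.log α₂ = Real.log ((α₂ ^ b₂ : ℕ) : ℝ) := by
    rw [Nat.cast_pow, Real.log_pow]
  have e1 : (b₁ : ℝ) * Real.log α₁ = Real.log ((α₁ ^ b₁ : ℕ) : ℝ) := by
    rw [Nat.cast_pow, Real.log_pow]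
  rw [e1, e2]
  have hu : (((α₂ ^ b₂ : ℕ) : ℝ)) ≤ 2 ^ (A * M) := by
    have h : α₂ ^ b₂ ≤ 2 ^ (A * M) := by
      rw [pow_mul]
      exact (Nat.pow_le_pow_left hA2 b₂).trans (Nat.pow_le_pow_right (Nat.pow_pos (by norm_num)) hM2)
    exact_mod_cast h
  have hv : (((α₁ ^ b₁ : ℕ) : ℝ)) ≤ 2 ^ (A * M) := by
    have h : α₁ ^ b₁ ≤ 2 ^ (A * M) := by
      rw [pow_mul]
      exact (Nat.pow_le_pow_left hA1 b₁).trans (Nat.pow_le_pow_right (Nat.pow_pos (by norm_num)) hM1)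
    exact_mod_cast h
  have hu0 : 0 < α₂ ^ b₂ := Nat.pow_pos (by omega)
  have hv0 : 0 < α₁ ^ b₁ := Nat.pow_pos (by omega)
  have hne : α₁ ^ b₁ ≠ α₂ ^ b₂ := fun h => by
    have := (hMI _ _ h).1
    omega
  have ehalf : (1 / 2 : ℝ) ^ (A * M) = 1 / 2 ^ (A * M) := by
    rw [div_pow, one_pow]
  rw [ehalf]
  rcases lt_or_gt_of_ne hne with h | h
  · have h3 : ((α₁ ^ b₁ : ℕ) : ℝ) + 1 ≤ ((α₂ ^ b₂ : ℕ) : ℝ) := by exact_mod_cast h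
    exact (ArchCop_log (by exact_mod_cast hv0) h3 hu).trans (le_abs_self _)
  · have h3 : ((α₂ ^ b₂ : ℕ) : ℝ) + 1 ≤ ((α₁ ^ b₁ : ℕ) : ℝ) := by exact_mod_cast h
    rw [abs_sub_comm]
    exact (ArchCop_log (by exact_mod_cast hu0) h3 hv).trans (le_abs_self _)

/-- Put `ρ = 16 l`, `κ = 256 ρ A`, `K = κ²`, `L = ρ²`, `T = κρ = 2^16 l^2 A`,
`N = K L = 2^32 l^4 A^2`. By `zeta_inj`, `arch_det` and `num_arch`,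
`|Λ| * (4 L T) * 2^N > 1`, and `4 L T ≤ 2^N`. -/
theorem arch_large {l A α₁ α₂ b₁ b₂ : ℕ} (hl : 1 ≤ l) (hA : 1 ≤ A) (hAl : A ≤ 2 ^ l)
    (hb2 : 0 < b₂) (hb1l : b₁ ≤ 2 ^ l) (hb2l : b₂ ≤ 2 ^ l) (hco : b₁.Coprime b₂)
    (hb1 : 2 ^ 16 * l ^ 2 * A ≤ b₁) (h1' : 2 ≤ α₁) (h2' : 2 ≤ α₂)
    (hA1 : α₁ ≤ 2 ^ A) (hA2 : α₂ ≤ 2 ^ A)
    (hMI : ∀ i j : ℕ, α₁ ^ i = α₂ ^ j → i = 0 ∧ j = 0) :
    (1 / 2 : ℝ) ^ (2 ^ 33 * l ^ 4 * A ^ 2) ≤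
      |(b₂ : ℝ) * Real.log α₂ - (b₁ : ℝ) * Real.log α₁| := by
  obtain ⟨ρ, hρ⟩ : ∃ ρ, ρ = 16 * l := ⟨_, rfl⟩
  obtain ⟨κ, hκ⟩ : ∃ κ, κ = 256 * ρ * A := ⟨_, rfl⟩
  have hl2 : 1 ≤ l ^ 2 := Nat.one_le_pow _ _ hl
  have hl4 : 1 ≤ l ^ 4 := Nat.one_le_pow _ _ hl
  have hTe : κ * ρ = 2 ^ 16 * l ^ 2 * A := by
    rw [hκ, hρ]
    ring
  have hNe : κ ^ 2 * ρ ^ 2 = 2 ^ 32 * l ^ 4 * A ^ 2 := by
    rw [hκ, hρ]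
    ring
  have hT : κ * ρ ≤ b₁ := by rw [hTe]; exact hb1
  have hb1' : 0 < b₁ := by
    have : 1 ≤ l ^ 2 * A := Nat.mul_pos hl2 hA
    nlinarith
  have hκ1 : 1 ≤ κ := by
    rw [hκ, hρ]
    have : 1 ≤ l * A := Nat.mul_pos hl hA
    nlinarith
  have hρ1 : 1 ≤ ρ := by omega
  have hnum := num_arch (l := l) (A := A) (B := 2 ^ l) hl hA hAl le_rfl hρ hκ
  by_contra hcon
  rw [not_le] at hcon
  set Λ : ℝ := |(b₂ : ℝ) * Real.log α₂ - (b₁ : ℝ) * Real.log α₁| with hΛdef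
  have h4LT : 4 * ρ ^ 2 * (κ * ρ) ≤ 2 ^ (κ ^ 2 * ρ ^ 2) := by
    have h1 : 4 * ρ ^ 2 * (κ * ρ) ≤ κ ^ 2 * ρ ^ 2 := by
      rw [hNe, hTe, hρ]
      have : l ^ 4 * A ≤ l ^ 4 * A ^ 2 := by
        have : A ≤ A ^ 2 := by nlinarith
        exact Nat.mul_le_mul_left _ this
      nlinarith
    exact h1.trans Nat.lt_two_pow_self.le
  have hΛ : Λ * (4 * ((ρ ^ 2 : ℕ) : ℝ) * ((κ * ρ : ℕ) : ℝ)) * 2 ^ (κ ^ 2 * ρ ^ 2) ≤ 1 := by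
    have h1 : (4 * ((ρ ^ 2 : ℕ) : ℝ) * ((κ * ρ : ℕ) : ℝ)) ≤ 2 ^ (κ ^ 2 * ρ ^ 2) := by
      exact_mod_cast h4LT
    have h0 : 0 ≤ Λ := abs_nonneg _
    have h00 : (0 : ℝ) < 2 ^ (κ ^ 2 * ρ ^ 2) := by positivity
    have h2 : Λ * (4 * ((ρ ^ 2 : ℕ) : ℝ) * ((κ * ρ : ℕ) : ℝ)) * 2 ^ (κ ^ 2 * ρ ^ 2) ≤
        Λ * 2 ^ (κ ^ 2 * ρ ^ 2) * 2 ^ (κ ^ 2 * ρ ^ 2) := by
      gcongr
    have h3 : (1 / 2 : ℝ) ^ (2 ^ 33 * l ^ 4 * A ^ 2) * 2 ^ (κ ^ 2 * ρ ^ 2) *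
        2 ^ (κ ^ 2 * ρ ^ 2) = 1 := by
      have e : 2 ^ 33 * l ^ 4 * A ^ 2 = κ ^ 2 * ρ ^ 2 + κ ^ 2 * ρ ^ 2 := by
        rw [hNe]
        ring
      rw [e, mul_assoc, ← pow_add, ← mul_pow]
      norm_num
    refine h2.trans ?_
    rw [← h3]
    gcongr
  have hKL : (κ ^ 2 - 1) * ρ ^ 2 < (κ * ρ) ^ 2 := by
    have h1 : 1 ≤ κ ^ 2 := Nat.one_le_pow _ _ hκ1
    have h2 : 1 ≤ ρ ^ 2 := Nat.one_le_pow _ _ hρ1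
    rw [mul_pow]
    exact Nat.mul_lt_mul_of_pos_right (by omega) h2
  have hdet := arch_det (K := κ ^ 2) (L := ρ ^ 2) (ρ := ρ) (T := κ * ρ) (A := A) (B := 2 ^ l)
    h1' h2' hA1 hA2 hA hb1l hb2l hT
    (by
      rw [hTe, hρ]
      nlinarith [Nat.mul_pos hl2 hA])
    (Nat.one_le_pow _ _ hρ1) (omega_inj h1' h2' hMI) le_rfl
    (Nat.le_mul_of_pos_left _ hκ1) (zeta_inj hb1' hb2 hco (Or.inl hT)) hKL hΛ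
  refine absurd hnum (not_lt.2 ?_)
  refine hdet.trans (le_of_eq ?_)
  push_cast
  ring_nf

end TL95
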