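import Mathlib
namespace TL95
open Polynomial

private theorem coeff_prod_le {ι : Type*} (s : Finset ι) (f : ι → ℚ[X]) (n : ι → ℕ)
    (h : ∀ i ∈ s, (f i).natDegree ≤ n i) :
    (∏ i ∈ s, f i).coeff (∑ i ∈ s, n i) = ∏ i ∈ s, (f i).coeff (n i) := by
  classical
  induction s using Finset.induction_on with
  | empty => simp
  | insert a s ha ih =>
    rw [Finset.prod_insert ha, Finset.sum_insert ha, Finset.prod_insert ha,
      ← ih (fun i hi => h i (Finset.mem_insert_of_mem hi))]
    apply Polynomial.coeff_mul_add_eq_of_natDegree_le (h a (Finset.mem_insert_self a s))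
    refine (Polynomial.natDegree_prod_le _ _).trans ?_
    exact Finset.sum_le_sum (fun i hi => h i (Finset.mem_insert_of_mem hi))

/-- The determinant of the matrix `(Q_l(X + τ_i) ω_i^l)` with all `Q_l ≠ 0` and distinct `ω_i` is a
nonzero polynomial of degree at most `∑ deg Q_l`: its coefficient of degree `∑ deg Q_l` is
`∏ lead(Q_l)` times the Vandermonde determinant of the `ω_i`
(`Matrix.det_vandermonde_ne_zero_iff`). -/
theorem det_poly {L : ℕ} (Q : Fin L → ℚ[X]) (hQ : ∀ l, Q l ≠ 0) (τ ω : Fin L → ℚ)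
    (hω : Function.Injective ω) :
    (Matrix.of fun i l : Fin L => (Q l).comp (X + C (τ i)) * C (ω i ^ (l : ℕ))).det ≠ 0 ∧
      (Matrix.of fun i l : Fin L => (Q l).comp (X + C (τ i)) * C (ω i ^ (l : ℕ))).det.natDegree ≤
        ∑ l, (Q l).natDegree := by
  set A : Matrix (Fin L) (Fin L) ℚ[X] :=
    Matrix.of fun i l : Fin L => (Q l).comp (X + C (τ i)) * C (ω i ^ (l : ℕ)) with hA
  have hdeg : ∀ i l, (A i l).natDegree ≤ (Q l).natDegree := by
    intro i l
    rw [hA, Matrix.of_apply]
    refine (Polynomial.natDegree_mul_C_le _ _).trans ?_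
    rw [← Polynomial.taylor_apply, Polynomial.natDegree_taylor]
  have hcoef : ∀ i l, (A i l).coeff (Q l).natDegree = (Q l).leadingCoeff * ω i ^ (l : ℕ) := by
    intro i l
    rw [hA, Matrix.of_apply, Polynomial.coeff_mul_C, ← Polynomial.taylor_apply,
      Polynomial.coeff_taylor_natDegree]
  have hdet : A.det = ∑ σ : Equiv.Perm (Fin L), Equiv.Perm.sign σ • ∏ l, A (σ l) l :=
    Matrix.det_apply A
  have hc : A.det.coeff (∑ l, (Q l).natDegree) =
      (Matrix.of fun i l : Fin L => (Q l).leadingCoeff * ω i ^ (l : ℕ)).det := by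
    rw [hdet, Matrix.det_apply, Polynomial.finsetSum_coeff]
    apply Finset.sum_congr rfl
    intro σ _
    have h1 : (∏ l, A (σ l) l).coeff (∑ l, (Q l).natDegree) =
        ∏ l, (Q l).leadingCoeff * ω (σ l) ^ (l : ℕ) := by
      rw [coeff_prod_le _ _ _ (fun l _ => hdeg (σ l) l)]
      exact Finset.prod_congr rfl (fun l _ => hcoef (σ l) l)
    rcases Int.units_eq_one_or (Equiv.Perm.sign σ) with hs | hs
    · rw [hs, one_smul, one_smul, h1]; rfl
    · rw [hs, Units.neg_smul, Units.neg_smul, one_smul, one_smul, Polynomial.coeff_neg, h1]; rfl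
  have hne : (Matrix.of fun i l : Fin L => (Q l).leadingCoeff * ω i ^ (l : ℕ)).det ≠ 0 := by
    have h1 := Matrix.det_mul_row (fun l => (Q l).leadingCoeff) (Matrix.vandermonde ω)
    have h2 : (Matrix.of fun i l : Fin L => (Q l).leadingCoeff * ω i ^ (l : ℕ)) =
        Matrix.of fun i l => (Q l).leadingCoeff * Matrix.vandermonde ω i l := by
      ext i l
      rw [Matrix.of_apply, Matrix.of_apply, Matrix.vandermonde_apply]
    rw [h2, h1]
    apply mul_ne_zero
    · exact Finset.prod_ne_zero_iff.2 (fun l _ => Polynomial.leadingCoeff_ne_zero.2 (hQ l))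
    · exact Matrix.det_vandermonde_ne_zero_iff.2 hω
  constructor
  · intro h0
    rw [h0, Polynomial.coeff_zero] at hc
    exact hne hc.symm
  · rw [hdet]
    apply Polynomial.natDegree_sum_le_of_forall_le
    intro σ _
    have h1 : (∏ l, A (σ l) l).natDegree ≤ ∑ l, (Q l).natDegree :=
      (Polynomial.natDegree_prod_le _ _).trans (Finset.sum_le_sum (fun l _ => hdeg (σ l) l))
    rcases Int.units_eq_one_or (Equiv.Perm.sign σ) with hs | hs
    · rw [hs, one_smul]; exact h1
    · rw [hs, Units.neg_smul, one_smul, Polynomial.natDegree_neg]; exact h1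

end TL95
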