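import Mathlib
namespace TL95

/-- Multiplicatively independent integers `≥ 2`. -/
theorem omega_inj {α₁ α₂ : ℕ} (h1 : 2 ≤ α₁) (h2 : 2 ≤ α₂)
    (hMI : ∀ i j : ℕ, α₁ ^ i = α₂ ^ j → i = 0 ∧ j = 0) :
    ∀ r s r' s' : ℕ, α₁ ^ r * α₂ ^ s = α₁ ^ r' * α₂ ^ s' → r = r' ∧ s = s' := by
  have key : ∀ r s r' s' : ℕ, r ≤ r' → α₁ ^ r * α₂ ^ s = α₁ ^ r' * α₂ ^ s' → r = r' ∧ s = s' := by
    intro r s r' s' hr h
    obtain ⟨d, rfl⟩ := Nat.exists_eq_add_of_le hr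
    have hp1 : 0 < α₁ ^ r := Nat.pow_pos (by omega)
    have e1 : α₂ ^ s = α₁ ^ d * α₂ ^ s' := by
      rw [pow_add, mul_assoc] at h
      exact Nat.eq_of_mul_eq_mul_left hp1 h
    rcases le_total s' s with hs | hs
    · obtain ⟨e, rfl⟩ := Nat.exists_eq_add_of_le hs
      have hp2 : 0 < α₂ ^ s' := Nat.pow_pos (by omega)
      have e2 : α₁ ^ d = α₂ ^ e := by
        rw [pow_add, mul_comm] at e1
        exact (Nat.eq_of_mul_eq_mul_right hp2 e1).symm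
      obtain ⟨h3, h4⟩ := hMI _ _ e2
      omega
    · obtain ⟨e, rfl⟩ := Nat.exists_eq_add_of_le hs
      have hp2 : 0 < α₂ ^ s := Nat.pow_pos (by omega)
      have e2 : 1 = α₁ ^ d * α₂ ^ e := by
        have e3 : α₂ ^ s * 1 = α₂ ^ s * (α₁ ^ d * α₂ ^ e) := by
          rw [mul_one, pow_add] at *
          linarith [e1, mul_left_comm (α₂ ^ s) (α₁ ^ d) (α₂ ^ e)]
        exact Nat.eq_of_mul_eq_mul_left hp2 e3
      have e4 : α₁ ^ d = 1 := Nat.eq_one_of_mul_eq_one_right e2.symm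
      have e5 : α₂ ^ e = 1 := Nat.eq_one_of_mul_eq_one_left e2.symm
      have e6 : d = 0 := by
        rcases Nat.eq_zero_or_pos d with h | h
        · exact h
        · exact absurd e4 (Nat.one_lt_pow h.ne' (by omega)).ne'
      have e7 : e = 0 := by
        rcases Nat.eq_zero_or_pos e with h | h
        · exact h
        · exact absurd e5 (Nat.one_lt_pow h.ne' (by omega)).ne'
      omega
  intro r s r' s' h
  rcases le_total r r' with hr | hr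
  · exact key r s r' s' hr h
  · obtain ⟨h3, h4⟩ := key r' s' r s hr h.symm
    exact ⟨h3.symm, h4.symm⟩

/-- If `T ≤ b₁`: `b₁ ∣ (r - r') b₂` and `|r - r'| < T` give `r = r'`; similarly if `T ≤ b₂`. -/
theorem zeta_inj {b₁ b₂ T : ℕ} (hb1 : 0 < b₁) (hb2 : 0 < b₂) (hco : b₁.Coprime b₂)
    (hT : T ≤ b₁ ∨ T ≤ b₂) :
    ∀ r s r' s' : ℕ, r < T → s < T → r' < T → s' < T →
      r * b₂ + s * b₁ = r' * b₂ + s' * b₁ → r = r' ∧ s = s' := by
  have key : ∀ b₁ b₂ : ℕ, 0 < b₁ → 0 < b₂ → b₁.Coprime b₂ → T ≤ b₁ →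
      ∀ r s r' s' : ℕ, r < T → r' < T → r * b₂ + s * b₁ = r' * b₂ + s' * b₁ → r = r' ∧ s = s' := by
    intro b₁ b₂ hb1 hb2 hco hT r s r' s' hr hr' h
    have h1 : r * b₂ ≡ r' * b₂ [MOD b₁] := by
      have e1 : r * b₂ + s * b₁ ≡ r * b₂ [MOD b₁] := by
        unfold Nat.ModEq
        rw [Nat.add_mul_mod_self_right]
      have e2 : r' * b₂ + s' * b₁ ≡ r' * b₂ [MOD b₁] := by
        unfold Nat.ModEq
        rw [Nat.add_mul_mod_self_right]
      rw [h] at e1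
      exact e1.symm.trans e2
    have h2 : r ≡ r' [MOD b₁] := Nat.ModEq.cancel_right_of_coprime hco h1
    have h3 : r = r' := Nat.ModEq.eq_of_lt_of_lt h2 (by omega) (by omega)
    subst h3
    refine ⟨rfl, ?_⟩
    have h4 : s * b₁ = s' * b₁ := by omega
    exact Nat.eq_of_mul_eq_mul_right hb1 h4
  intro r s r' s' hr hs hr' hs' h
  rcases hT with hT | hT
  · exact key b₁ b₂ hb1 hb2 hco hT r s r' s' hr hr' h
  · obtain ⟨h1, h2⟩ := key b₂ b₁ hb2 hb1 hco.symm hT s r s' r' hs hs' (by linarith)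
    exact ⟨h2, h1⟩

end TL95
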