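import Mathlib
namespace TL95

/-- A matrix with linearly independent rows has a nonzero maximal minor.  Proof: the rows are
linearly independent, so `rank = card ι = rank Mᵀ`; hence the columns span `ι → F` and a basis can
be chosen among the columns (e.g. `exists_linearIndependent'`, `Basis` of the span of a family), and
the corresponding square matrix is invertible. -/
theorem exists_minor {ι J F : Type*} [Fintype ι] [DecidableEq ι] [Fintype J] [Field F]
    (M : Matrix ι J F) (h : ∀ c : ι → F, (∀ j, ∑ i, c i * M i j = 0) → c = 0) :
    ∃ f : ι → J, (M.submatrix id f).det ≠ 0 := by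
  classical
  let v : J → (ι → F) := fun j i => M i j
  have hspan : Submodule.span F (Set.range v) = ⊤ := by
    by_contra hne
    obtain ⟨φ, hφ, hker⟩ := Submodule.exists_le_ker_of_lt_top _ (lt_top_iff_ne_top.2 hne)
    apply hφ
    let c : ι → F := fun i => φ (Pi.single i 1)
    have hφc : ∀ w : ι → F, φ w = ∑ i, c i * w i := by
      intro w
      have : w = ∑ i, w i • (Pi.single i (1 : F) : ι → F) := by
        funext j
        simp [Finset.sum_apply, Pi.single_apply]
      conv_lhs => rw [this]
      rw [map_sum]
      apply Finset.sum_congr rfl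
      intro i _
      rw [map_smul, smul_eq_mul, mul_comm]
    have hc : c = 0 := by
      apply h
      intro j
      rw [← hφc (v j)]
      exact hker (Submodule.subset_span ⟨j, rfl⟩)
    ext w
    rw [LinearMap.comp_apply, hφc, hc]
    simp
  obtain ⟨κ, a, ha, hsp, hli⟩ := exists_linearIndependent' F v
  rw [hspan] at hsp
  let b : Module.Basis κ F (ι → F) := Module.Basis.mk hli hsp.ge
  haveI : Finite κ := Finite.of_injective a ha
  haveI : Fintype κ := Fintype.ofFinite κ
  have hcard : Fintype.card κ = Fintype.card ι := by
    rw [← Module.finrank_eq_card_basis b, Module.finrank_fintype_fun_eq_card]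
  let e : ι ≃ κ := (Fintype.equivOfCardEq hcard).symm
  refine ⟨a ∘ e, ?_⟩
  have hcol : LinearIndependent F (M.submatrix id (a ∘ e)).col := by
    have : (M.submatrix id (a ∘ e)).col = (v ∘ a) ∘ e := by
      funext j i
      rfl
    rw [this]
    exact hli.comp e e.injective
  rw [Matrix.linearIndependent_cols_iff_isUnit, Matrix.isUnit_iff_isUnit_det] at hcol
  exact hcol.ne_zero

end TL95
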