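import Mathlib
namespace TL95

/-- Newton interpolation identity. Proof: `choose z t * choose t k = choose z k * choose (z-k) (t-k)`
(`Nat.choose_mul`), the terms with `t < k` or `t > z` vanish, and
`∑_{j ≤ z-k} choose (z-k) j * w^j = (1+w)^(z-k)` (`add_pow` / `Commute.add_pow`). -/
theorem newton_identity {R : Type*} [CommRing R] (w : R) (z k T : ℕ) (hT : z < T) :
    (Nat.choose z k : R) * (1 + w) ^ z =
      ∑ t ∈ Finset.range T,
        (Nat.choose t k : R) * w ^ (t - k) * (1 + w) ^ k * (Nat.choose z t : R) := by
  have h1 : ∑ t ∈ Finset.range T,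
        (Nat.choose t k : R) * w ^ (t - k) * (1 + w) ^ k * (Nat.choose z t : R) =
      ∑ t ∈ Finset.range (z + 1),
        (Nat.choose t k : R) * w ^ (t - k) * (1 + w) ^ k * (Nat.choose z t : R) := by
    symm
    apply Finset.sum_subset (Finset.range_subset_range.2 hT)
    intro t _ ht
    rw [Finset.mem_range, not_lt] at ht
    rw [Nat.choose_eq_zero_of_lt (by omega : z < t)]
    simp
  rw [h1]
  rcases lt_or_ge z k with hzk | hkz
  · rw [Nat.choose_eq_zero_of_lt hzk]
    rw [Finset.sum_eq_zero]
    · simp
    · intro t ht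
      rw [Finset.mem_range] at ht
      rw [Nat.choose_eq_zero_of_lt (by omega : t < k)]
      simp
  · obtain ⟨d, rfl⟩ := Nat.exists_eq_add_of_le hkz
    have h2 : k + d + 1 = k + (d + 1) := by ring
    rw [h2, Finset.sum_range_add]
    have h3 : ∑ t ∈ Finset.range k,
        (Nat.choose t k : R) * w ^ (t - k) * (1 + w) ^ k * (Nat.choose (k + d) t : R) = 0 := by
      apply Finset.sum_eq_zero
      intro t ht
      rw [Finset.mem_range] at ht
      rw [Nat.choose_eq_zero_of_lt ht]
      simp
    rw [h3, zero_add, pow_add, add_comm (1 : R) w, add_pow w 1 d, Finset.mul_sum, Finset.mul_sum]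
    apply Finset.sum_congr rfl
    intro j hj
    rw [Finset.mem_range] at hj
    have h4 : (k + d).choose (k + j) * (k + j).choose k = (k + d).choose k * d.choose j := by
      have := Nat.choose_mul (n := k + d) (k := k + j) (s := k) (by omega)
      rw [this, Nat.add_sub_cancel_left, Nat.add_sub_cancel_left]
    have h5 : (((k + d).choose (k + j) : ℕ) : R) * (((k + j).choose k : ℕ) : R) =
        (((k + d).choose k : ℕ) : R) * ((d.choose j : ℕ) : R) := by
      rw [← Nat.cast_mul, ← Nat.cast_mul, h4]
    rw [Nat.add_sub_cancel_left, one_pow, mul_one]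
    linear_combination (-(w ^ j * (w + 1) ^ k)) * h5

end TL95
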