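import Mathlib
namespace TL95

private theorem card_sum_le (S : Finset ℕ) : S.card * (S.card - 1) ≤ 2 * ∑ t ∈ S, t := by
  induction S using Finset.induction_on_max with
  | empty => simp
  | insert a s ha ih =>
    have hna : a ∉ s := fun h => lt_irrefl a (ha a h)
    rw [Finset.sum_insert hna, Finset.card_insert_of_notMem hna]
    have hsub : s ⊆ Finset.range a := fun x hx => Finset.mem_range.2 (ha x hx)
    have hc : s.card ≤ a := by
      have := Finset.card_le_card hsub
      rwa [Finset.card_range] at this
    rcases Nat.eq_zero_or_pos s.card with h0 | h0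
    · rw [h0]; simp
    · obtain ⟨c, hc'⟩ := Nat.exists_eq_add_of_lt h0
      rw [hc'] at ih hc ⊢
      have e1 : 0 + c + 1 - 1 = c := by omega
      have e2 : 0 + c + 1 + 1 - 1 = c + 1 := by omega
      rw [e1] at ih
      rw [e2]
      nlinarith

/-- Weights: distinct natural numbers, except that the value `none` (weight `N = card ι`) may be
repeated. If `s` indices have the value `none`, the others carry `N - s` distinct naturals with sum
at least `(N-s)(N-s-1)/2`, and `(N-s)(N-s-1)/2 + N s ≥ N(N-1)/2`.  (Distinct naturals: compare with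
`Finset.sum_range_id`, e.g. `Finset.sum_range_le_sum`.) -/
theorem weight_sum {ι : Type*} [Fintype ι] (f : ι → Option ℕ)
    (hf : ∀ i j t, f i = some t → f j = some t → i = j) :
    Fintype.card ι * (Fintype.card ι - 1) / 2 ≤ ∑ i, (f i).getD (Fintype.card ι) := by
  classical
  set N := Fintype.card ι with hN
  set S : Finset ι := Finset.univ.filter (fun i => f i = none) with hS
  set S' : Finset ι := Finset.univ.filter (fun i => ¬ f i = none) with hS'
  have h1 : ∑ i, (f i).getD N = ∑ i ∈ S, (f i).getD N + ∑ i ∈ S', (f i).getD N :=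
    (Finset.sum_filter_add_sum_filter_not _ _ _).symm
  have h2 : ∑ i ∈ S, (f i).getD N = S.card * N := by
    rw [Finset.sum_congr rfl (g := fun _ => N)]
    · simp
    · intro i hi
      rw [hS, Finset.mem_filter] at hi
      simp [hi.2]
  have hinj : Set.InjOn (fun i => (f i).getD N) S' := by
    intro i hi j hj hij
    rw [Finset.mem_coe, hS', Finset.mem_filter] at hi hj
    obtain ⟨t, ht⟩ := Option.ne_none_iff_exists'.1 hi.2
    obtain ⟨t', ht'⟩ := Option.ne_none_iff_exists'.1 hj.2
    simp only [ht, ht', Option.getD_some] at hij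
    subst hij
    exact hf i j t ht ht'
  have h3 : S'.card * (S'.card - 1) ≤ 2 * ∑ i ∈ S', (f i).getD N := by
    have h4 := card_sum_le (S'.image (fun i => (f i).getD N))
    rw [Finset.card_image_of_injOn hinj, Finset.sum_image hinj] at h4
    exact h4
  have h5 : S.card + S'.card = N := by
    rw [hN]
    exact Finset.card_filter_add_card_filter_not _
  rw [h1, h2]
  apply Nat.div_le_of_le_mul
  generalize (∑ i ∈ S', (f i).getD N) = W at h3
  have h6 : N * (N - 1) ≤ N * N - N := by
    rw [Nat.mul_sub, mul_one]
  generalize hs : S.card = s at h5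
  generalize hs' : S'.card = s' at h3 h5
  clear hs hs' h1 h2 hinj hS hS' hf
  clear_value N
  subst h5
  rcases Nat.eq_zero_or_pos s' with h0 | h0
  · subst h0
    have : s * (s - 1) ≤ s * s := Nat.mul_le_mul_left _ (Nat.sub_le _ _)
    simp only [add_zero] at *
    nlinarith
  · obtain ⟨c, hc⟩ := Nat.exists_eq_add_of_lt h0
    have hc' : s' = c + 1 := by omega
    subst hc'
    have e1 : c + 1 - 1 = c := by omega
    have e2 : s + (c + 1) - 1 = s + c := by omega
    rw [e1] at h3
    rw [e2]
    nlinarith

end TL95
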